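import Pool.Agent.H65I.Wall
import Pool.Agent.H175R2.Fam
import Pool.Agent.H175R2.Cw

/-! The seven minimal graphs with unbounded clique-width. -/

namespace Pool.Agent.H65I

open Pool.Agent.H175R2

lemma exists_cwLE {V : Type} [Finite V] [Nonempty V] (G : SimpleGraph V) : ∃ k, CwLE G k := by
  have : Fintype V := Fintype.ofFinite V
  have ht : Tame G (Fintype.card V) := ⟨Finset.univ, by simp, fun x hx => by simp at hx⟩
  exact ⟨_, cwLE_of_dt (dt_of_tame ht)⟩

lemma cwLE_cliqueWidth {V : Type} [Finite V] [Nonempty V] (G : SimpleGraph V) :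
    CwLE G (cliqueWidth G) :=
  Nat.sInf_mem (s := {k | CwLE G k}) (exists_cwLE G)

lemma not_bdd {W : Type} {H : SimpleGraph W} {V : ℕ → Type} [∀ n, Finite (V n)]
    (fam : ∀ n, SimpleGraph (V n)) (hne : ∀ n, 1 ≤ n → Nonempty (V n))
    (hfree : ∀ n, ¬ IndTopMinor H (fam n))
    (hu : ∀ c N : ℕ, ∃ n ≥ N, ∀ k ≤ c, ¬ CwLE (fam n) k) : ¬ BddCwITM H := by
  rintro ⟨c, hc⟩
  obtain ⟨n, hn, h⟩ := hu c 1
  have := hne n hn
  exact h _ (hc (V n) (fam n) (hfree n)) (cwLE_cliqueWidth _)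

/-- `3P₁` -/
def B1 : SimpleGraph (Fin 3) := ⊥
/-- `2P₂` -/
def B2 : SimpleGraph (Fin 4) := SimpleGraph.fromRel (fun x y => (x = 0 ∧ y = 1) ∨ (x = 2 ∧ y = 3))
/-- `K₃ + P₁` -/
def B3 : SimpleGraph (Fin 4) := SimpleGraph.fromRel (fun x y => x ≠ 3 ∧ y ≠ 3)
/-- `C₄` -/
def B4 : SimpleGraph (Fin 4) := SimpleGraph.fromRel (fun x y => y = x + 1)
/-- `K₄` -/
def B5 : SimpleGraph (Fin 4) := ⊤
/-- the gem: `4` joined to the path `0 1 2 3` -/
def B6 : SimpleGraph (Fin 5) := SimpleGraph.fromRel (fun x y => x = 4 ∨ x.val + 1 = y.val)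
/-- `C₅` -/
def B7 : SimpleGraph (Fin 5) := SimpleGraph.fromRel (fun x y => y = x + 1)

/-! ### `3P₁` -/

def Inv1 {U : Type} (K : SimpleGraph U) : Prop :=
  ∃ a b c, a ≠ b ∧ a ≠ c ∧ b ≠ c ∧ ¬ K.Adj a b ∧ ¬ K.Adj a c ∧ ¬ K.Adj b c

theorem inv1_of {U : Type} {K : SimpleGraph U} (h : IsSubdivision B1 K) : Inv1 K := by
  refine h.inv (P := fun K => Inv1 K) ?_ ?_ ?_
  · rintro U U' K K' e ⟨a, b, c, h1, h2, h3, h4, h5, h6⟩
    exact ⟨e a, e b, e c, by simpa using h1, by simpa using h2, by simpa using h3,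
      by rwa [e.map_adj_iff], by rwa [e.map_adj_iff], by rwa [e.map_adj_iff]⟩
  · rintro U K u v huv ⟨a, b, c, h1, h2, h3, h4, h5, h6⟩
    refine ⟨some a, some b, some c, by simpa using h1, by simpa using h2, by simpa using h3,
      ?_, ?_, ?_⟩ <;> rw [sub_some_some] <;> tauto
  · exact ⟨0, 1, 2, by decide, by decide, by decide, by simp [B1], by simp [B1], by simp [B1]⟩

lemma cobip_no_inv1 {n : ℕ} {U : Type} {K : SimpleGraph U} (f : K ↪g famCobip n) : ¬ Inv1 K := by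
  rintro ⟨a, b, c, h1, h2, h3, h4, h5, h6⟩
  rw [← f.map_adj_iff] at h4 h5 h6
  have g1 : f a ≠ f b := fun h => h1 (f.injective h)
  have g2 : f a ≠ f c := fun h => h2 (f.injective h)
  have g3 : f b ≠ f c := fun h => h3 (f.injective h)
  revert g1 g2 g3 h4 h5 h6
  generalize f a = x
  generalize f b = y
  generalize f c = z
  intro h4 h5 h6 g1 g2 g3
  simp only [famCobip, SimpleGraph.fromRel_adj, not_and] at h4 h5 h6
  have h4 := h4 g1
  have h5 := h5 g2
  have h6 := h6 g3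
  rcases x with x | x <;> rcases y with y | y <;> rcases z with z | z <;>
    simp_all

theorem not_bdd_B1 : ¬ BddCwITM B1 := by
  refine not_bdd (fun n => famCobip n) (fun n hn => ⟨.inl ⟨0, hn⟩⟩) ?_ famCobip_unbounded
  intro n h
  obtain ⟨U, K, hK, ⟨f⟩⟩ := h.exists_emb
  exact cobip_no_inv1 f (inv1_of hK)

/-! ### `2P₂` -/

def Inv2 {U : Type} (K : SimpleGraph U) : Prop :=
  ∃ a b c d, K.Adj a b ∧ K.Adj c d ∧ a ≠ c ∧ a ≠ d ∧ b ≠ c ∧ b ≠ d ∧
    ¬ K.Adj a c ∧ ¬ K.Adj a d ∧ ¬ K.Adj b c ∧ ¬ K.Adj b d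

theorem inv2_of {U : Type} {K : SimpleGraph U} (h : IsSubdivision B2 K) : Inv2 K := by
  refine h.inv (P := fun K => Inv2 K) ?_ ?_ ?_
  · rintro U U' K K' e ⟨a, b, c, d, h1, h2, h3, h4, h5, h6, h7, h8, h9, h10⟩
    exact ⟨e a, e b, e c, e d, by rwa [e.map_adj_iff], by rwa [e.map_adj_iff], by simpa using h3,
      by simpa using h4, by simpa using h5, by simpa using h6,
      by rwa [e.map_adj_iff], by rwa [e.map_adj_iff], by rwa [e.map_adj_iff],
      by rwa [e.map_adj_iff]⟩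
  · rintro U K u v huv ⟨a, b, c, d, h1, h2, h3, h4, h5, h6, h7, h8, h9, h10⟩
    by_cases k1 : (a = u ∧ b = v) ∨ (a = v ∧ b = u)
    · refine ⟨some a, none, some c, some d, ?_, ?_, ?_, ?_, ?_, ?_, ?_, ?_, ?_, ?_⟩
      · rw [sub_some_none]; tauto
      · rw [sub_some_some]
        refine ⟨h2, ?_, ?_⟩ <;> rintro ⟨rfl, rfl⟩ <;> rcases k1 with ⟨rfl, rfl⟩ | ⟨rfl, rfl⟩ <;>
          simp at h3 h4 h5 h6
      · simpa using h3
      · simpa using h4
      · simp
      · simp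
      · rw [sub_some_some]; tauto
      · rw [sub_some_some]; tauto
      · rw [sub_none_some]
        rcases k1 with ⟨rfl, rfl⟩ | ⟨rfl, rfl⟩ <;> tauto
      · rw [sub_none_some]
        rcases k1 with ⟨rfl, rfl⟩ | ⟨rfl, rfl⟩ <;> tauto
    · by_cases k2 : (c = u ∧ d = v) ∨ (c = v ∧ d = u)
      · refine ⟨some a, some b, some c, none, ?_, ?_, ?_, ?_, ?_, ?_, ?_, ?_, ?_, ?_⟩
        · rw [sub_some_some]; tauto
        · rw [sub_some_none]; tauto
        · simpa using h3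
        · simp
        · simpa using h5
        · simp
        · rw [sub_some_some]; tauto
        · rw [sub_some_none]
          rcases k2 with ⟨rfl, rfl⟩ | ⟨rfl, rfl⟩ <;> tauto
        · rw [sub_some_some]; tauto
        · rw [sub_some_none]
          rcases k2 with ⟨rfl, rfl⟩ | ⟨rfl, rfl⟩ <;> tauto
      · refine ⟨some a, some b, some c, some d, ?_, ?_, ?_, ?_, ?_, ?_, ?_, ?_, ?_, ?_⟩
        · rw [sub_some_some]; tauto
        · rw [sub_some_some]; tauto
        · simpa using h3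
        · simpa using h4
        · simpa using h5
        · simpa using h6
        · rw [sub_some_some]; tauto
        · rw [sub_some_some]; tauto
        · rw [sub_some_some]; tauto
        · rw [sub_some_some]; tauto
  · exact ⟨0, 1, 2, 3, by simp [B2], by simp [B2], by decide, by decide, by decide, by decide,
      by simp [B2], by simp [B2], by simp [B2], by simp [B2]⟩

lemma split_adj {n : ℕ} {x y : Fin n ⊕ (Fin n × Fin n)} (h : (famSplit n).Adj x y) :
    (∃ a, x = .inl a) ∨ (∃ a, y = .inl a) := by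
  simp only [famSplit, SimpleGraph.fromRel_adj] at h
  rcases h.2 with (⟨a, b, h1, h2⟩ | ⟨a, p, h1, h2, h3⟩) | (⟨a, b, h1, h2⟩ | ⟨a, p, h1, h2, h3⟩)
  · exact Or.inl ⟨a, h1⟩
  · exact Or.inl ⟨a, h1⟩
  · exact Or.inl ⟨b, h2⟩
  · exact Or.inr ⟨a, h1⟩

lemma split_clique {n : ℕ} {a b : Fin n} (h : a ≠ b) :
    (famSplit n).Adj (.inl a) (.inl b) := by
  simp [famSplit, SimpleGraph.fromRel_adj, h]

lemma split_no_inv2 {n : ℕ} {U : Type} {K : SimpleGraph U} (f : K ↪g famSplit n) : ¬ Inv2 K := by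
  rintro ⟨a, b, c, d, h1, h2, h3, h4, h5, h6, h7, h8, h9, h10⟩
  have key : ∀ x y : U, x ≠ y → ¬ K.Adj x y → ∀ p q, f x = .inl p → f y = .inl q → False := by
    intro x y hxy hn p q hp hq
    apply hn
    rw [← f.map_adj_iff, hp, hq]
    apply split_clique
    rintro rfl
    exact hxy (f.injective (hp.trans hq.symm))
  rcases split_adj (f.map_adj_iff.2 h1) with ⟨p, hp⟩ | ⟨p, hp⟩ <;>
    rcases split_adj (f.map_adj_iff.2 h2) with ⟨q, hq⟩ | ⟨q, hq⟩
  · exact key _ _ h3 h7 _ _ hp hq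
  · exact key _ _ h4 h8 _ _ hp hq
  · exact key _ _ h5 h9 _ _ hp hq
  · exact key _ _ h6 h10 _ _ hp hq

theorem not_bdd_B2 : ¬ BddCwITM B2 := by
  refine not_bdd (fun n => famSplit n) (fun n hn => ⟨.inl ⟨0, hn⟩⟩) ?_ famSplit_unbounded
  intro n h
  obtain ⟨U, K, hK, ⟨f⟩⟩ := h.exists_emb
  exact split_no_inv2 f (inv2_of hK)

/-! ### long cycles -/

def Inv3 {U : Type} (K : SimpleGraph U) : Prop :=
  Nonempty U ∧ (∀ x, DegGE K x 2) ∧ ∀ x y z, K.Adj x y → K.Adj y z → ¬ K.Adj x z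

theorem inv3_of {W : Type} {H : SimpleGraph W} (h0 : Inv3 H) {U : Type} {K : SimpleGraph U}
    (h : IsSubdivision H K) : Inv3 K := by
  refine h.inv (P := fun K => Inv3 K) ?_ ?_ h0
  · rintro U U' K K' e ⟨h1, h2, h3⟩
    refine ⟨h1.map e, fun x => ?_, fun x y z h h' h'' => ?_⟩
    · have := (h2 (e.symm x)).emb e.toEmbedding
      simpa using this
    · refine h3 (e.symm x) (e.symm y) (e.symm z) ?_ ?_ ?_ <;> rwa [e.symm.map_adj_iff]
  · rintro U K u v huv ⟨h1, h2, h3⟩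
    refine ⟨⟨none⟩, fun x => ?_, fun x y z h h' h'' => ?_⟩
    · rcases x with _ | x
      · exact DegGE.sub_none huv
      · exact (h2 x).sub huv
    · obtain ⟨a, b, c, -, -, -, ha, hb, hc⟩ := sub_triangle h h' h''
      exact h3 _ _ _ ha hb hc

lemma split_no_inv3 {n : ℕ} {U : Type} {K : SimpleGraph U} (f : K ↪g famSplit n) : ¬ Inv3 K := by
  rintro ⟨⟨x0⟩, h2, h3⟩
  -- a vertex on the clique side
  have hy : ∃ y a, f y = .inl a := by
    rcases hx : f x0 with a | p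
    · exact ⟨x0, a, hx⟩
    · obtain ⟨g, _, hg⟩ := h2 x0
      rcases split_adj (f.map_adj_iff.2 (hg 0)) with ⟨q, hq⟩ | ⟨q, hq⟩
      · rw [hx] at hq; simp at hq
      · exact ⟨_, q, hq⟩
  obtain ⟨y, a, hy⟩ := hy
  have two : ∀ y : U, ∀ z1 z2 : U, K.Adj y z1 → K.Adj y z2 → z1 ≠ z2 → ∀ b c, f z1 = .inl b →
      f z2 = .inl c → False := by
    intro y z1 z2 h1 h2' hne b c hb hc
    refine h3 z1 y z2 h1.symm h2' ?_
    rw [← f.map_adj_iff, hb, hc]
    apply split_clique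
    rintro rfl
    exact hne (f.injective (hb.trans hc.symm))
  obtain ⟨g, hg, hadj⟩ := h2 y
  have hz : ∃ z p, f z = .inr p := by
    by_contra hcon
    push Not at hcon
    have e0 : ∃ b, f (g 0) = .inl b := by
      rcases h : f (g 0) with b | p
      · exact ⟨b, rfl⟩
      · exact absurd h (hcon _ _)
    have e1 : ∃ b, f (g 1) = .inl b := by
      rcases h : f (g 1) with b | p
      · exact ⟨b, rfl⟩
      · exact absurd h (hcon _ _)
    obtain ⟨b, hb⟩ := e0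
    obtain ⟨c, hc⟩ := e1
    exact two y (g 0) (g 1) (hadj 0) (hadj 1) (fun e => by have := hg e; simp at this) b c hb hc
  obtain ⟨z, p, hz⟩ := hz
  obtain ⟨g', hg', hadj'⟩ := h2 z
  have e0 : ∀ i, ∃ b, f (g' i) = .inl b := by
    intro i
    rcases split_adj (f.map_adj_iff.2 (hadj' i)) with ⟨q, hq⟩ | ⟨q, hq⟩
    · rw [hz] at hq; simp at hq
    · exact ⟨q, hq⟩
  obtain ⟨b, hb⟩ := e0 0
  obtain ⟨c, hc⟩ := e0 1
  exact two z (g' 0) (g' 1) (hadj' 0) (hadj' 1) (fun e => by have := hg' e; simp at this) b c hb hc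

lemma B4_inv : Inv3 B4 := by
  refine ⟨⟨0⟩, fun x => ⟨![x + 1, x + 3], ?_, ?_⟩, ?_⟩
  · intro i j hij
    revert x
    revert i j
    decide
  · intro i
    fin_cases i <;> fin_cases x <;> simp [B4]
  · simp only [B4, SimpleGraph.fromRel_adj]
    decide

lemma B7_inv : Inv3 B7 := by
  refine ⟨⟨0⟩, fun x => ⟨![x + 1, x + 4], ?_, ?_⟩, ?_⟩
  · intro i j hij
    revert x
    revert i j
    decide
  · intro i
    fin_cases i <;> fin_cases x <;> simp [B7]
  · simp only [B7, SimpleGraph.fromRel_adj]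
    decide

theorem not_bdd_inv3 {W : Type} {H : SimpleGraph W} (h0 : Inv3 H) : ¬ BddCwITM H := by
  refine not_bdd (fun n => famSplit n) (fun n hn => ⟨.inl ⟨0, hn⟩⟩) ?_ famSplit_unbounded
  intro n h
  obtain ⟨U, K, hK, ⟨f⟩⟩ := h.exists_emb
  exact split_no_inv3 f (inv3_of h0 hK)

theorem not_bdd_B4 : ¬ BddCwITM B4 := not_bdd_inv3 B4_inv
theorem not_bdd_B7 : ¬ BddCwITM B7 := not_bdd_inv3 B7_inv

/-! ### `K₄` -/

def Inv4 {U : Type} (K : SimpleGraph U) : Prop :=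
  ∃ b : Fin 4 → U, Function.Injective b ∧ (∀ i, DegGE K (b i) 3) ∧
    ∀ x y z, K.Adj x y → K.Adj y z → K.Adj x z → ∃ i, b i = x

theorem inv4_of {U : Type} {K : SimpleGraph U} (h : IsSubdivision B5 K) : Inv4 K := by
  refine h.inv (P := fun K => Inv4 K) ?_ ?_ ?_
  · rintro U U' K K' e ⟨b, h1, h2, h3⟩
    refine ⟨e ∘ b, e.injective.comp h1, fun i => (h2 i).emb e.toEmbedding,
      fun x y z h h' h'' => ?_⟩
    obtain ⟨i, hi⟩ := h3 (e.symm x) (e.symm y) (e.symm z) (e.symm.map_adj_iff.2 h)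
      (e.symm.map_adj_iff.2 h') (e.symm.map_adj_iff.2 h'')
    exact ⟨i, by simp [hi]⟩
  · rintro U K u v huv ⟨b, h1, h2, h3⟩
    refine ⟨fun i => some (b i), fun i j hij => h1 (Option.some.inj hij), fun i => (h2 i).sub huv,
      fun x y z h h' h'' => ?_⟩
    obtain ⟨a, b', c, rfl, -, -, ha, hb, hc⟩ := sub_triangle h h' h''
    obtain ⟨i, hi⟩ := h3 _ _ _ ha hb hc
    exact ⟨i, by simp [hi]⟩
  · refine ⟨id, Function.injective_id, fun i => ⟨![i + 1, i + 2, i + 3], ?_, ?_⟩,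
      fun x _ _ _ _ _ => ⟨x, rfl⟩⟩
    · intro j k hjk
      revert i
      revert j k
      decide
    · intro j
      fin_cases i <;> fin_cases j <;> simp [B5]

lemma tri_no_inv4 {V C : Type} {F : SimpleGraph V} {cell : V → C} (hF : TriLike F cell)
    {U : Type} {K : SimpleGraph U} (f : K ↪g F) : ¬ Inv4 K := by
  rintro ⟨b, h1, h2, h3⟩
  have key : ∀ i, ∃ j l, j ≠ i ∧ l ≠ i ∧ j ≠ l ∧ cell (f (b j)) = cell (f (b i)) ∧
      cell (f (b l)) = cell (f (b i)) := by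
    intro i
    obtain ⟨g, hg, hadj⟩ := h2 i
    have main : ∀ p q : U, K.Adj (b i) p → K.Adj (b i) q → K.Adj p q → ∃ j l, j ≠ i ∧ l ≠ i ∧
        j ≠ l ∧ cell (f (b j)) = cell (f (b i)) ∧ cell (f (b l)) = cell (f (b i)) := by
      intro p q hp hq hpq
      obtain ⟨j, hj⟩ := h3 p (b i) q hp.symm hq hpq
      obtain ⟨l, hl⟩ := h3 q (b i) p hq.symm hp hpq.symm
      refine ⟨j, l, ?_, ?_, ?_, ?_, ?_⟩
      · rintro rfl; exact hp.ne hj
      · rintro rfl; exact hq.ne hl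
      · rintro rfl; exact hpq.ne (hj.symm.trans hl)
      · rw [hj]
        exact hF.tri (f.map_adj_iff.2 hp) (f.map_adj_iff.2 hq) (f.map_adj_iff.2 hpq)
      · rw [hl]
        exact hF.tri (f.map_adj_iff.2 hq) (f.map_adj_iff.2 hp) (f.map_adj_iff.2 hpq.symm)
    have n01 : g 0 ≠ g 1 := fun e => by have := hg e; simp at this
    have n02 : g 0 ≠ g 2 := fun e => by have := hg e; simp at this
    have n12 : g 1 ≠ g 2 := fun e => by have := hg e; simp at this
    rcases hF.claw (f.map_adj_iff.2 (hadj 0)) (f.map_adj_iff.2 (hadj 1)) (f.map_adj_iff.2 (hadj 2))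
      (fun e => n01 (f.injective e)) (fun e => n02 (f.injective e)) (fun e => n12 (f.injective e))
      with h | h | h
    · exact main _ _ (hadj 0) (hadj 1) (f.map_adj_iff.1 h)
    · exact main _ _ (hadj 0) (hadj 2) (f.map_adj_iff.1 h)
    · exact main _ _ (hadj 1) (hadj 2) (f.map_adj_iff.1 h)
  have hall : ∀ i, cell (f (b i)) = cell (f (b 0)) := by
    intro i
    obtain ⟨j, l, k1, k2, k3, k4, k5⟩ := key 0
    obtain ⟨j', l', k1', k2', k3', k4', k5'⟩ := key i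
    by_cases e0 : i = 0
    · rw [e0]
    by_cases e1 : i = j
    · rw [e1]; exact k4
    by_cases e2 : i = l
    · rw [e2]; exact k5
    have : j' = 0 ∨ j' = j ∨ j' = l := by omega
    rcases this with rfl | rfl | rfl
    · exact k4'.symm
    · exact k4'.symm.trans k4
    · exact k4'.symm.trans k5
  have inj : ∀ i j : Fin 4, i ≠ j → f (b i) ≠ f (b j) := fun i j hij h => hij (h1 (f.injective h))
  rcases hF.three (f (b 0)) (f (b 1)) (f (b 2)) (f (b 3)) (hall 1).symm (hall 2).symm (hall 3).symm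
    with h | h | h | h | h | h <;> exact inj _ _ (by decide) h

lemma famT_unb1 : ∀ c N : ℕ, ∃ n ≥ N, ∀ k ≤ c, ¬ CwLE (famT n) k := fun c N =>
  ⟨N + 9 * c + 2, by omega, fun k hk => (famT_unbounded c _ (by omega) k hk).1⟩

lemma famT_unb2 : ∀ c N : ℕ, ∃ n ≥ N, ∀ k ≤ c, ¬ CwLE (famT n)ᶜ k := fun c N =>
  ⟨N + 9 * c + 2, by omega, fun k hk => (famT_unbounded c _ (by omega) k hk).2⟩

theorem not_bdd_B5 : ¬ BddCwITM B5 := by
  refine not_bdd (fun n => famT n) (fun n hn => ⟨((⟨0, hn⟩, ⟨0, hn⟩), true, 0)⟩) ?_ famT_unb1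
  intro n h
  obtain ⟨U, K, hK, ⟨f⟩⟩ := h.exists_emb
  exact tri_no_inv4 (famT_triLike n) f (inv4_of hK)

/-! ### the gem -/

def Inv5 {U : Type} (K : SimpleGraph U) : Prop := ∃ x, DegGE K x 4

theorem inv5_of {U : Type} {K : SimpleGraph U} (h : IsSubdivision B6 K) : Inv5 K := by
  refine h.inv (P := fun K => Inv5 K) ?_ ?_ ?_
  · rintro U U' K K' e ⟨x, h⟩
    exact ⟨_, h.emb e.toEmbedding⟩
  · rintro U K u v huv ⟨x, h⟩
    exact ⟨_, h.sub huv⟩
  · refine ⟨4, ⟨![0, 1, 2, 3], by decide, ?_⟩⟩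
    intro i
    fin_cases i <;> simp [B6]

theorem not_bdd_B6 : ¬ BddCwITM B6 := by
  refine not_bdd (fun n => famT n) (fun n hn => ⟨((⟨0, hn⟩, ⟨0, hn⟩), true, 0)⟩) ?_ famT_unb1
  intro n h
  obtain ⟨U, K, hK, ⟨f⟩⟩ := h.exists_emb
  obtain ⟨x, hx⟩ := inv5_of hK
  exact (famT_triLike n).not_degGE _ (hx.emb f)

/-! ### `K₃ + P₁` -/

def Inv6 {U : Type} (K : SimpleGraph U) : Prop :=
  ∃ w, (∀ x, ¬ K.Adj w x) ∧ (∃ x, x ≠ w) ∧ ∀ x, x ≠ w → DegGE K x 2

theorem inv6_of {U : Type} {K : SimpleGraph U} (h : IsSubdivision B3 K) : Inv6 K := by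
  refine h.inv (P := fun K => Inv6 K) ?_ ?_ ?_
  · rintro U U' K K' e ⟨w, h1, ⟨x0, hx0⟩, h3⟩
    refine ⟨e w, fun x => ?_, ⟨e x0, by simpa using hx0⟩, fun x hx => ?_⟩
    · have := h1 (e.symm x)
      rw [← e.map_adj_iff] at this
      simpa using this
    · have := (h3 (e.symm x) (by rintro rfl; simp at hx)).emb e.toEmbedding
      simpa using this
  · rintro U K u v huv ⟨w, h1, ⟨x0, hx0⟩, h3⟩
    refine ⟨some w, fun x => ?_, ⟨some x0, by simpa using hx0⟩, fun x hx => ?_⟩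
    · rcases x with _ | x
      · rw [sub_some_none]
        rintro (rfl | rfl)
        · exact h1 _ huv
        · exact h1 _ huv.symm
      · rw [sub_some_some]
        exact fun h => h1 _ h.1
    · rcases x with _ | x
      · exact DegGE.sub_none huv
      · exact (h3 x (by rintro rfl; exact hx rfl)).sub huv
  · refine ⟨3, fun x => by simp [B3], ⟨0, by decide⟩, fun x hx => ?_⟩
    fin_cases x
    · refine ⟨![1, 2], by decide, fun i => by fin_cases i <;> simp [B3]⟩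
    · refine ⟨![0, 2], by decide, fun i => by fin_cases i <;> simp [B3]⟩
    · refine ⟨![0, 1], by decide, fun i => by fin_cases i <;> simp [B3]⟩
    · exact absurd rfl hx

lemma tri_no_inv6 {V C : Type} {F : SimpleGraph V} {cell : V → C} (hF : TriLike F cell)
    {U : Type} {K : SimpleGraph U} (f : K ↪g Fᶜ) : ¬ Inv6 K := by
  rintro ⟨w, h1, ⟨x, hx⟩, h3⟩
  have hw : ∀ y, y ≠ w → F.Adj (f w) (f y) := by
    intro y hy
    have := h1 y
    rw [← f.map_adj_iff, SimpleGraph.compl_adj, not_and, not_not] at this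
    exact this (fun h => hy (f.injective h).symm)
  have hne : ∀ a b, K.Adj a b → b ≠ w := by
    rintro a b h rfl
    exact h1 a h.symm
  have inj : ∀ a b : U, a ≠ b → f a ≠ f b := fun a b h h' => h (f.injective h')
  have four : ∀ a b c d : U, a ≠ w → b ≠ w → c ≠ w → d ≠ w → a ≠ b → a ≠ c → a ≠ d → b ≠ c →
      b ≠ d → c ≠ d → False := by
    intro a b c d ha hb hc hd n1 n2 n3 n4 n5 n6
    exact hF.deg (hw a ha) (hw b hb) (hw c hc) (hw d hd) (inj _ _ n1) (inj _ _ n2) (inj _ _ n3)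
      (inj _ _ n4) (inj _ _ n5) (inj _ _ n6)
  have nadj : ∀ a b, K.Adj a b → ¬ F.Adj (f a) (f b) := by
    intro a b h
    rw [← f.map_adj_iff, SimpleGraph.compl_adj] at h
    exact h.2
  obtain ⟨g, hg, hadj⟩ := h3 x hx
  have hyz : g 0 ≠ g 1 := fun e => by have := hg e; simp at this
  have hy := hne _ _ (hadj 0)
  have hz := hne _ _ (hadj 1)
  -- the two neighbours are adjacent
  have hyz' : K.Adj (g 0) (g 1) := by
    obtain ⟨g', hg', hadj'⟩ := h3 (g 0) hy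
    have hyz2 : g' 0 ≠ g' 1 := fun e => by have := hg' e; simp at this
    by_contra hcon
    have main : ∀ t, K.Adj (g 0) t → t = x := by
      intro t ht
      by_contra htx
      refine four x (g 0) (g 1) t hx hy hz (hne _ _ ht) (hadj 0).ne (hadj 1).ne (Ne.symm htx) hyz
        ht.ne ?_
      rintro rfl
      exact hcon ht
    exact hyz2 ((main _ (hadj' 0)).trans (main _ (hadj' 1)).symm)
  rcases hF.claw (hw x hx) (hw _ hy) (hw _ hz) (inj _ _ (hadj 0).ne) (inj _ _ (hadj 1).ne)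
    (inj _ _ hyz) with h | h | h
  · exact nadj _ _ (hadj 0) h
  · exact nadj _ _ (hadj 1) h
  · exact nadj _ _ hyz' h

theorem not_bdd_B3 : ¬ BddCwITM B3 := by
  refine not_bdd (fun n => (famT n)ᶜ) (fun n hn => ⟨((⟨0, hn⟩, ⟨0, hn⟩), true, 0)⟩) ?_ famT_unb2
  intro n h
  obtain ⟨U, K, hK, ⟨f⟩⟩ := h.exists_emb
  exact tri_no_inv6 (famT_triLike n) f (inv6_of hK)

end Pool.Agent.H65I
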