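import Pool.Agent.H65I.Cls0

namespace Pool.Agent.H65I

open Pool.Agent.H175R2

section

variable {W : Type} {H : SimpleGraph W}

lemma emb_of_ck {m p : ℕ} {B : SimpleGraph (Fin p)} [DecidableRel B.Adj] {T : Fin m → Fin m → Bool}
    (e : Fin m → W) (he : Function.Injective e)
    (hT : ∀ i j, i ≠ j → (T i j = true ↔ H.Adj (e i) (e j)))
    {L : List (Fin p → Fin m)} (h : L.any (ck B T) = true) : Nonempty (B ↪g H) := by
  rw [List.any_eq_true] at h
  obtain ⟨g, -, hg⟩ := h
  simp only [ck, List.all_eq_true, List.mem_finRange, forall_true_left, Bool.or_eq_true,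
    decide_eq_true_eq, Bool.and_eq_true, beq_iff_eq, Bool.not_eq_true', decide_eq_false_iff_not]
    at hg
  refine ⟨⟨⟨fun i => e (g i), ?_⟩, ?_⟩⟩
  · intro i j hij
    by_contra hne
    rcases hg i j with h | h
    · exact hne h
    · exact h.2 (he hij)
  · intro i j
    by_cases hij : i = j
    · subst hij; simp
    · rcases hg i j with h | h
      · exact absurd h hij
      · show H.Adj (e (g i)) (e (g j)) ↔ _
        rw [← hT _ _ h.2, h.1, decide_eq_true_eq]

lemma emb_of_ck' {m p : ℕ} {B : SimpleGraph (Fin p)} [DecidableRel B.Adj]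
    {T : Fin m → Fin m → Bool} (e : W ≃ Fin m)
    (hT : ∀ i j, i ≠ j → (T i j = true ↔ H.Adj (e.symm i) (e.symm j)))
    {L : List (Fin m → Fin p)} (h : L.any (ck' B T) = true) : Nonempty (H ↪g B) := by
  rw [List.any_eq_true] at h
  obtain ⟨g, -, hg⟩ := h
  simp only [ck', List.all_eq_true, List.mem_finRange, forall_true_left, Bool.or_eq_true,
    decide_eq_true_eq, Bool.and_eq_true, beq_iff_eq, Bool.not_eq_true', decide_eq_false_iff_not]
    at hg
  refine ⟨⟨⟨fun x => g (e x), ?_⟩, ?_⟩⟩
  · intro i j hij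
    by_contra hne
    rcases hg (e i) (e j) with h | h
    · exact hne (e.injective h)
    · exact h.2 hij
  · intro i j
    by_cases hij : i = j
    · subst hij; simp
    · have hne : e i ≠ e j := fun h => hij (e.injective h)
      rcases hg (e i) (e j) with h | h
      · exact absurd h hne
      · show B.Adj (g (e i)) (g (e j)) ↔ _
        have := hT _ _ hne
        rw [h.1, decide_eq_true_eq, e.symm_apply_apply, e.symm_apply_apply] at this
        exact this

lemma Tn_comm {m n : ℕ} {i j : Fin m} (h : i ≠ j) : Tn m n i j = Tn m n j i := by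
  unfold Tn
  have h' : i.val ≠ j.val := fun e => h (Fin.ext e)
  rcases lt_or_gt_of_ne h' with h1 | h1
  · rw [if_pos h1, if_neg (by omega)]
  · rw [if_neg (by omega), if_pos h1]

open Classical in
lemma exists_mask5 (e : Fin 5 → W) : ∃ n < 2 ^ 10, ∀ i j, i ≠ j →
    (Tn 5 n i j = true ↔ H.Adj (e i) (e j)) := by
  set d : Fin 5 → Fin 5 → Bool := fun i j => decide (H.Adj (e i) (e j)) with hd
  have hs : ∀ i j, d i j = d j i := by
    intro i j; simp only [hd, H.adj_comm]
  set f : Fin 10 → Bool := ![d 0 1, d 0 2, d 0 3, d 0 4, d 1 2, d 1 3, d 1 4, d 2 3, d 2 4, d 3 4]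
    with hf
  refine ⟨Nat.ofBits f, Nat.ofBits_lt_two_pow f, ?_⟩
  have key : ∀ i j, i ≠ j → Tn 5 (Nat.ofBits f) i j = d i j := by
    intro i j hij
    have ht : ∀ k (hk : k < 10), (Nat.ofBits f).testBit k = f ⟨k, hk⟩ :=
      fun k hk => Nat.testBit_ofBits_lt f k hk
    have key' : ∀ i j, i < j → Tn 5 (Nat.ofBits f) i j = d i j := by
      intro i j hij
      fin_cases i <;> fin_cases j <;> first
        | exact absurd hij (by decide)
        | (simp only [Tn, ix]; norm_num [-Nat.testBit_zero, -Nat.testBit_ofBits_lt,]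
           rw [ht _ (by norm_num)]; rfl)
    rcases lt_or_gt_of_ne hij with h | h
    · exact key' i j h
    · rw [hs, ← key' j i h, Tn_comm hij]
  intro i j hij
  rw [key i j hij]; simp [hd]

open Classical in
lemma exists_mask4 (e : Fin 4 → W) : ∃ n < 2 ^ 6, ∀ i j, i ≠ j →
    (Tn 4 n i j = true ↔ H.Adj (e i) (e j)) := by
  set d : Fin 4 → Fin 4 → Bool := fun i j => decide (H.Adj (e i) (e j)) with hd
  have hs : ∀ i j, d i j = d j i := by
    intro i j; simp only [hd, H.adj_comm]
  set f : Fin 6 → Bool := ![d 0 1, d 0 2, d 0 3, d 1 2, d 1 3, d 2 3] with hf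
  refine ⟨Nat.ofBits f, Nat.ofBits_lt_two_pow f, ?_⟩
  have key : ∀ i j, i ≠ j → Tn 4 (Nat.ofBits f) i j = d i j := by
    intro i j hij
    have ht : ∀ k (hk : k < 6), (Nat.ofBits f).testBit k = f ⟨k, hk⟩ :=
      fun k hk => Nat.testBit_ofBits_lt f k hk
    have key' : ∀ i j, i < j → Tn 4 (Nat.ofBits f) i j = d i j := by
      intro i j hij
      fin_cases i <;> fin_cases j <;> first
        | exact absurd hij (by decide)
        | (simp only [Tn, ix]; norm_num [-Nat.testBit_zero, -Nat.testBit_ofBits_lt,]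
           rw [ht _ (by norm_num)]; rfl)
    rcases lt_or_gt_of_ne hij with h | h
    · exact key' i j h
    · rw [hs, ← key' j i h, Tn_comm hij]
  intro i j hij
  rw [key i j hij]; simp [hd]

open Classical in
lemma exists_mask3 (e : Fin 3 → W) : ∃ n < 2 ^ 3, ∀ i j, i ≠ j →
    (Tn 3 n i j = true ↔ H.Adj (e i) (e j)) := by
  set d : Fin 3 → Fin 3 → Bool := fun i j => decide (H.Adj (e i) (e j)) with hd
  have hs : ∀ i j, d i j = d j i := by
    intro i j; simp only [hd, H.adj_comm]
  set f : Fin 3 → Bool := ![d 0 1, d 0 2, d 1 2] with hf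
  refine ⟨Nat.ofBits f, Nat.ofBits_lt_two_pow f, ?_⟩
  have key : ∀ i j, i ≠ j → Tn 3 (Nat.ofBits f) i j = d i j := by
    intro i j hij
    have ht : ∀ k (hk : k < 3), (Nat.ofBits f).testBit k = f ⟨k, hk⟩ :=
      fun k hk => Nat.testBit_ofBits_lt f k hk
    have key' : ∀ i j, i < j → Tn 3 (Nat.ofBits f) i j = d i j := by
      intro i j hij
      fin_cases i <;> fin_cases j <;> first
        | exact absurd hij (by decide)
        | (simp only [Tn, ix]; norm_num [-Nat.testBit_zero, -Nat.testBit_ofBits_lt,]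
           rw [ht _ (by norm_num)]; rfl)
    rcases lt_or_gt_of_ne hij with h | h
    · exact key' i j h
    · rw [hs, ← key' j i h, Tn_comm hij]
  intro i j hij
  rw [key i j hij]; simp [hd]

open Classical in
lemma exists_mask2 (e : Fin 2 → W) : ∃ n < 2 ^ 1, ∀ i j, i ≠ j →
    (Tn 2 n i j = true ↔ H.Adj (e i) (e j)) := by
  set d : Fin 2 → Fin 2 → Bool := fun i j => decide (H.Adj (e i) (e j)) with hd
  have hs : ∀ i j, d i j = d j i := by
    intro i j; simp only [hd, H.adj_comm]
  set f : Fin 1 → Bool := ![d 0 1] with hf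
  refine ⟨Nat.ofBits f, Nat.ofBits_lt_two_pow f, ?_⟩
  have key : ∀ i j, i ≠ j → Tn 2 (Nat.ofBits f) i j = d i j := by
    intro i j hij
    have ht : ∀ k (hk : k < 1), (Nat.ofBits f).testBit k = f ⟨k, hk⟩ :=
      fun k hk => Nat.testBit_ofBits_lt f k hk
    have key' : ∀ i j, i < j → Tn 2 (Nat.ofBits f) i j = d i j := by
      intro i j hij
      fin_cases i <;> fin_cases j <;> first
        | exact absurd hij (by decide)
        | (simp only [Tn, ix]; norm_num [-Nat.testBit_zero, -Nat.testBit_ofBits_lt,]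
           rw [ht _ (by norm_num)]; rfl)
    rcases lt_or_gt_of_ne hij with h | h
    · exact key' i j h
    · rw [hs, ← key' j i h, Tn_comm hij]
  intro i j hij
  rw [key i j hij]; simp [hd]

/-- one of the seven minimal bad graphs embeds -/
def HasBad {W : Type} (H : SimpleGraph W) : Prop :=
  Nonempty (B1 ↪g H) ∨ Nonempty (B2 ↪g H) ∨ Nonempty (B3 ↪g H) ∨ Nonempty (B4 ↪g H) ∨
  Nonempty (B5 ↪g H) ∨ Nonempty (B6 ↪g H) ∨ Nonempty (B7 ↪g H)

/-- `H` embeds in one of the three maximal good graphs -/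
def InGood {W : Type} (H : SimpleGraph W) : Prop :=
  Nonempty (H ↪g Q4) ∨ Nonempty (H ↪g paw) ∨ Nonempty (H ↪g diamond)

theorem hasBad_or_inGood [Finite W] (H : SimpleGraph W) : HasBad H ∨ InGood H := by
  have : Fintype W := Fintype.ofFinite W
  by_cases h5 : 5 ≤ Fintype.card W
  · left
    obtain ⟨e⟩ : Nonempty (Fin 5 ↪ W) := by
      rw [Function.Embedding.nonempty_iff_card_le]; simpa using h5
    obtain ⟨n, hn, hT⟩ := exists_mask5 (H := H) e
    have := ok5_all n hn
    simp only [ok5, Bool.or_eq_true] at this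
    unfold HasBad
    rcases this with (((((h | h) | h) | h) | h) | h) | h <;>
      have := emb_of_ck e e.injective hT h <;> tauto
  · obtain ⟨m, hm⟩ : ∃ m, Fintype.card W = m := ⟨_, rfl⟩
    have e : W ≃ Fin m := Fintype.equivFinOfCardEq hm
    have hlt : m < 5 := by omega
    clear hm h5
    interval_cases m
    · right; left
      exact ⟨⟨⟨fun x => (e x).elim0, fun x => (e x).elim0⟩, fun {x} => (e x).elim0⟩⟩
    · right; left
      have hsub : ∀ x y : W, x = y := fun x y => e.injective (Subsingleton.elim _ _)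
      refine ⟨⟨⟨fun x => 0, fun x y _ => hsub x y⟩, fun {x y} => ?_⟩⟩
      have := hsub x y
      subst this
      simp
    · obtain ⟨n, hn, hT⟩ := exists_mask2 (H := H) e.symm
      have := ok2_all n hn
      simp only [ok2] at this
      exact Or.inr (Or.inl (emb_of_ck' e hT this))
    · obtain ⟨n, hn, hT⟩ := exists_mask3 (H := H) e.symm
      have := ok3_all n hn
      simp only [ok3, Bool.or_eq_true] at this
      unfold HasBad InGood
      rcases this with ((h | h) | h) | h
      · have := emb_of_ck _ e.symm.injective hT h; tauto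
      all_goals have := emb_of_ck' e hT h; tauto
    · obtain ⟨n, hn, hT⟩ := exists_mask4 (H := H) e.symm
      have := ok4_all n hn
      simp only [ok4, Bool.or_eq_true] at this
      unfold HasBad InGood
      rcases this with ((((((h | h) | h) | h) | h) | h) | h) | h
      iterate 5 (have := emb_of_ck _ e.symm.injective hT h; tauto)
      all_goals have := emb_of_ck' e hT h; tauto

end

theorem inGood_of_bdd {W : Type} [Finite W] {H : SimpleGraph W} (h : BddCwITM H) : InGood H := by
  rcases hasBad_or_inGood H with h' | h'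
  · exfalso
    rcases h' with ⟨⟨f⟩⟩ | ⟨⟨f⟩⟩ | ⟨⟨f⟩⟩ | ⟨⟨f⟩⟩ | ⟨⟨f⟩⟩ | ⟨⟨f⟩⟩ | ⟨⟨f⟩⟩
    · exact not_bdd_B1 (h.mono f)
    · exact not_bdd_B2 (h.mono f)
    · exact not_bdd_B3 (h.mono f)
    · exact not_bdd_B4 (h.mono f)
    · exact not_bdd_B5 (h.mono f)
    · exact not_bdd_B6 (h.mono f)
    · exact not_bdd_B7 (h.mono f)
  · exact h'

end Pool.Agent.H65I
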