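import Pool.Agent.H65I.Bad
import Mathlib.Combinatorics.SimpleGraph.Hasse

/-! Every finite graph without the seven minimal bad graphs embeds in `P₄`, the paw or the
diamond. -/

namespace Pool.Agent.H65I

open Pool.Agent.H175R2

def L3B1 : List (Fin 3 → Fin 3) :=
  [![0, 1, 2]]

def L4B1 : List (Fin 3 → Fin 4) :=
  [![0, 1, 2], ![0, 1, 3], ![0, 2, 3], ![1, 2, 3]]

def L4B2 : List (Fin 4 → Fin 4) :=
  [![0, 1, 2, 3], ![0, 2, 1, 3], ![0, 3, 1, 2]]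

def L4B3 : List (Fin 4 → Fin 4) :=
  [![0, 1, 2, 3], ![0, 1, 3, 2], ![0, 2, 3, 1], ![1, 2, 3, 0]]

def L4B4 : List (Fin 4 → Fin 4) :=
  [![0, 1, 2, 3], ![0, 1, 3, 2], ![0, 2, 1, 3]]

def L4B5 : List (Fin 4 → Fin 4) :=
  [![0, 1, 2, 3]]

def L5B1 : List (Fin 3 → Fin 5) :=
  [![0, 1, 2], ![0, 1, 3], ![0, 1, 4], ![0, 2, 3], ![0, 2, 4], ![0, 3, 4], ![1, 2, 3], ![1, 2, 4],
    ![1, 3, 4], ![2, 3, 4]]

def L5B2 : List (Fin 4 → Fin 5) :=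
  [![0, 1, 2, 3], ![0, 1, 2, 4], ![0, 1, 3, 4], ![0, 2, 1, 3], ![0, 2, 1, 4], ![0, 2, 3, 4], ![0,
    3, 1, 2], ![0, 3, 1, 4], ![0, 3, 2, 4], ![0, 4, 1, 2], ![0, 4, 1, 3], ![0, 4, 2, 3], ![1, 2,
    3, 4], ![1, 3, 2, 4], ![1, 4, 2, 3]]

def L5B3 : List (Fin 4 → Fin 5) :=
  [![0, 1, 2, 3], ![0, 1, 2, 4], ![0, 1, 3, 2], ![0, 1, 3, 4], ![0, 1, 4, 2], ![0, 1, 4, 3], ![0,
    2, 3, 1], ![0, 2, 3, 4], ![0, 2, 4, 1], ![0, 2, 4, 3], ![0, 3, 4, 1], ![0, 3, 4, 2], ![1, 2,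
    3, 0], ![1, 2, 3, 4], ![1, 2, 4, 0], ![1, 2, 4, 3], ![1, 3, 4, 0], ![1, 3, 4, 2], ![2, 3, 4,
    0], ![2, 3, 4, 1]]

def L5B4 : List (Fin 4 → Fin 5) :=
  [![0, 1, 2, 3], ![0, 1, 2, 4], ![0, 1, 3, 2], ![0, 1, 3, 4], ![0, 1, 4, 2], ![0, 1, 4, 3], ![0,
    2, 1, 3], ![0, 2, 1, 4], ![0, 2, 3, 4], ![0, 2, 4, 3], ![0, 3, 1, 4], ![0, 3, 2, 4], ![1, 2,
    3, 4], ![1, 2, 4, 3], ![1, 3, 2, 4]]

def L5B5 : List (Fin 4 → Fin 5) :=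
  [![0, 1, 2, 3], ![0, 1, 2, 4], ![0, 1, 3, 4], ![0, 2, 3, 4], ![1, 2, 3, 4]]

def L5B6 : List (Fin 5 → Fin 5) :=
  [![0, 1, 2, 3, 4], ![0, 1, 2, 4, 3], ![0, 1, 3, 2, 4], ![0, 1, 3, 4, 2], ![0, 1, 4, 2, 3], ![0,
    1, 4, 3, 2], ![0, 2, 1, 3, 4], ![0, 2, 1, 4, 3], ![0, 2, 3, 1, 4], ![0, 2, 3, 4, 1], ![0, 2,
    4, 1, 3], ![0, 2, 4, 3, 1], ![0, 3, 1, 2, 4], ![0, 3, 1, 4, 2], ![0, 3, 2, 1, 4], ![0, 3, 2,
    4, 1], ![0, 3, 4, 1, 2], ![0, 3, 4, 2, 1], ![0, 4, 1, 2, 3], ![0, 4, 1, 3, 2], ![0, 4, 2, 1,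
    3], ![0, 4, 2, 3, 1], ![0, 4, 3, 1, 2], ![0, 4, 3, 2, 1], ![1, 0, 2, 3, 4], ![1, 0, 2, 4, 3],
    ![1, 0, 3, 2, 4], ![1, 0, 3, 4, 2], ![1, 0, 4, 2, 3], ![1, 0, 4, 3, 2], ![1, 2, 0, 3, 4], ![1,
    2, 0, 4, 3], ![1, 2, 3, 4, 0], ![1, 2, 4, 3, 0], ![1, 3, 0, 2, 4], ![1, 3, 0, 4, 2], ![1, 3,
    2, 4, 0], ![1, 3, 4, 2, 0], ![1, 4, 0, 2, 3], ![1, 4, 0, 3, 2], ![1, 4, 2, 3, 0], ![1, 4, 3,
    2, 0], ![2, 0, 1, 3, 4], ![2, 0, 1, 4, 3], ![2, 0, 3, 4, 1], ![2, 0, 4, 3, 1], ![2, 1, 0, 3,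
    4], ![2, 1, 0, 4, 3], ![2, 1, 3, 4, 0], ![2, 1, 4, 3, 0], ![2, 3, 0, 4, 1], ![2, 3, 1, 4, 0],
    ![2, 4, 0, 3, 1], ![2, 4, 1, 3, 0], ![3, 0, 1, 4, 2], ![3, 0, 2, 4, 1], ![3, 1, 0, 4, 2], ![3,
    1, 2, 4, 0], ![3, 2, 0, 4, 1], ![3, 2, 1, 4, 0]]

def L5B7 : List (Fin 5 → Fin 5) :=
  [![0, 1, 2, 3, 4], ![0, 1, 2, 4, 3], ![0, 1, 3, 2, 4], ![0, 1, 3, 4, 2], ![0, 1, 4, 2, 3], ![0,
    1, 4, 3, 2], ![0, 2, 1, 3, 4], ![0, 2, 1, 4, 3], ![0, 2, 3, 1, 4], ![0, 2, 4, 1, 3], ![0, 3,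
    1, 2, 4], ![0, 3, 2, 1, 4]]

def J1 : List (Fin 1 → Fin 4) :=
  [![0], ![1], ![2], ![3]]

def J2 : List (Fin 2 → Fin 4) :=
  [![0, 1], ![0, 2], ![0, 3], ![1, 0], ![1, 2], ![1, 3], ![2, 0], ![2, 1], ![2, 3], ![3, 0], ![3,
    1], ![3, 2]]

def J3 : List (Fin 3 → Fin 4) :=
  [![0, 1, 2], ![0, 1, 3], ![0, 2, 1], ![0, 2, 3], ![0, 3, 1], ![0, 3, 2], ![1, 0, 2], ![1, 0, 3],
    ![1, 2, 0], ![1, 2, 3], ![1, 3, 0], ![1, 3, 2], ![2, 0, 1], ![2, 0, 3], ![2, 1, 0], ![2, 1,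
    3], ![2, 3, 0], ![2, 3, 1], ![3, 0, 1], ![3, 0, 2], ![3, 1, 0], ![3, 1, 2], ![3, 2, 0], ![3,
    2, 1]]

def J4 : List (Fin 4 → Fin 4) :=
  [![0, 1, 2, 3], ![0, 1, 3, 2], ![0, 2, 1, 3], ![0, 2, 3, 1], ![0, 3, 1, 2], ![0, 3, 2, 1], ![1,
    0, 2, 3], ![1, 0, 3, 2], ![1, 2, 0, 3], ![1, 2, 3, 0], ![1, 3, 0, 2], ![1, 3, 2, 0], ![2, 0,
    1, 3], ![2, 0, 3, 1], ![2, 1, 0, 3], ![2, 1, 3, 0], ![2, 3, 0, 1], ![2, 3, 1, 0], ![3, 0, 1,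
    2], ![3, 0, 2, 1], ![3, 1, 0, 2], ![3, 1, 2, 0], ![3, 2, 0, 1], ![3, 2, 1, 0]]

/-- the path on four vertices, as a relation -/
def Q4 : SimpleGraph (Fin 4) := SimpleGraph.fromRel (fun x y => x.val + 1 = y.val)

instance : DecidableRel B1.Adj := by unfold B1; infer_instance
instance : DecidableRel B2.Adj := by unfold B2; infer_instance
instance : DecidableRel B3.Adj := by unfold B3; infer_instance
instance : DecidableRel B4.Adj := by unfold B4; infer_instance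
instance : DecidableRel B5.Adj := by unfold B5; infer_instance
instance : DecidableRel B6.Adj := by unfold B6; infer_instance
instance : DecidableRel B7.Adj := by unfold B7; infer_instance
instance : DecidableRel Q4.Adj := by unfold Q4; infer_instance
instance : DecidableRel paw.Adj := by unfold paw; infer_instance
instance : DecidableRel diamond.Adj := by unfold diamond; infer_instance

/-- bit index of a pair -/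
def ix (m i j : ℕ) : ℕ := i * (2 * m - 1 - i) / 2 + (j - i - 1)

/-- graph from a bit mask -/
def Tn (m n : ℕ) (i j : Fin m) : Bool :=
  n.testBit (if i.val < j.val then ix m i j else ix m j i)

/-- pattern check -/
def ck {m p : ℕ} (B : SimpleGraph (Fin p)) [DecidableRel B.Adj] (T : Fin m → Fin m → Bool)
    (g : Fin p → Fin m) : Bool :=
  (List.finRange p).all fun i => (List.finRange p).all fun j =>
    decide (i = j) || ((T (g i) (g j) == decide (B.Adj i j)) && !decide (g i = g j))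

/-- embedding check -/
def ck' {m p : ℕ} (B : SimpleGraph (Fin p)) [DecidableRel B.Adj] (T : Fin m → Fin m → Bool)
    (g : Fin m → Fin p) : Bool :=
  (List.finRange m).all fun i => (List.finRange m).all fun j =>
    decide (i = j) || ((T i j == decide (B.Adj (g i) (g j))) && !decide (g i = g j))

def ok5 (n : ℕ) : Bool :=
  L5B1.any (ck B1 (Tn 5 n)) || L5B5.any (ck B5 (Tn 5 n)) || L5B3.any (ck B3 (Tn 5 n)) ||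
  L5B2.any (ck B2 (Tn 5 n)) || L5B4.any (ck B4 (Tn 5 n)) || L5B6.any (ck B6 (Tn 5 n)) ||
  L5B7.any (ck B7 (Tn 5 n))

def ok4 (n : ℕ) : Bool :=
  L4B1.any (ck B1 (Tn 4 n)) || L4B5.any (ck B5 (Tn 4 n)) || L4B3.any (ck B3 (Tn 4 n)) ||
  L4B2.any (ck B2 (Tn 4 n)) || L4B4.any (ck B4 (Tn 4 n)) || J4.any (ck' Q4 (Tn 4 n)) ||
  J4.any (ck' paw (Tn 4 n)) || J4.any (ck' diamond (Tn 4 n))

def ok3 (n : ℕ) : Bool :=
  L3B1.any (ck B1 (Tn 3 n)) || J3.any (ck' Q4 (Tn 3 n)) ||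
  J3.any (ck' paw (Tn 3 n)) || J3.any (ck' diamond (Tn 3 n))

def ok2 (n : ℕ) : Bool := J2.any (ck' Q4 (Tn 2 n))

theorem ok5_all : ∀ n < 2 ^ 10, ok5 n = true := by decide +kernel
theorem ok4_all : ∀ n < 2 ^ 6, ok4 n = true := by decide +kernel
theorem ok3_all : ∀ n < 2 ^ 3, ok3 n = true := by decide +kernel
theorem ok2_all : ∀ n < 2 ^ 1, ok2 n = true := by decide +kernel

end Pool.Agent.H65I
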