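import Pool.Agent.H175R2.Defs

/-! Subdivisions and induced topological minors, for MP_d0d08e_co. -/

namespace Pool.Agent.H65I

open Pool.Agent.H175R2

/-- Subdivide the edge `uv` of `G` once: the edge `uv` is removed and a new vertex `none`, adjacent
to exactly `u` and `v`, is added. -/
def subdivideEdge {V : Type} (G : SimpleGraph V) (u v : V) : SimpleGraph (Option V) :=
  SimpleGraph.fromRel (fun x y =>
    (∃ a b, x = some a ∧ y = some b ∧ G.Adj a b ∧ ¬ (a = u ∧ b = v) ∧ ¬ (a = v ∧ b = u)) ∨
    (x = none ∧ (y = some u ∨ y = some v)))

/-- `IsSubdivision H K`: up to isomorphism, `K` arises from `H` by a sequence of zero or more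
subdivisions of single edges; equivalently, by replacing the edges of `H` with internally
vertex-disjoint paths. -/
inductive IsSubdivision {W : Type} (H : SimpleGraph W) : ∀ {U : Type}, SimpleGraph U → Prop
  | iso {U : Type} {K : SimpleGraph U} (e : H ≃g K) : IsSubdivision H K
  | step {U U' : Type} {K : SimpleGraph U} {K' : SimpleGraph U'} {u v : U}
      (h : IsSubdivision H K) (huv : K.Adj u v) (e : subdivideEdge K u v ≃g K') :
      IsSubdivision H K'

/-- `H` is an induced topological minor of `G`: some induced subgraph of `G` is isomorphic to a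
subdivision of `H`. -/
def IndTopMinor {W V : Type} (H : SimpleGraph W) (G : SimpleGraph V) : Prop :=
  ∃ S : Set V, IsSubdivision H (G.induce S)

/-- Clique-width is bounded on the class of finite `H`-induced-topological-minor-free graphs. -/
def BddCwITM {W : Type} (H : SimpleGraph W) : Prop :=
  ∃ c : ℕ, ∀ (V : Type) [Finite V] (G : SimpleGraph V), ¬ IndTopMinor H G → cliqueWidth G ≤ c

end Pool.Agent.H65I
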