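import Pool.Agent.H65I.Supp
import Pool.Agent.H175R2.Blocks

/-! Structure of 2-connected graphs without induced subdivisions of the diamond or the paw. -/

namespace Pool.Agent.H65I

open Pool.Agent.H175R2 Finset Classical

variable {V : Type} {G : SimpleGraph V}

/-- `C` minus `x` is an induced path between the two neighbours of `x` in `C` -/
def Rot (G : SimpleGraph V) (C : Finset V) (x : V) : Prop :=
  x ∈ C ∧ ∃ a c, a ≠ c ∧ IPath G a c (C.erase x) ∧ G.Adj x a ∧ G.Adj x c ∧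
    ∀ z ∈ C, G.Adj x z → z = a ∨ z = c

lemma rot_first {C : Finset V} {x a c : V} (hxC : x ∈ C) (hac : a ≠ c)
    (hP : IPath G a c (C.erase x)) (hxa : G.Adj x a) (hxc : G.Adj x c)
    (hnb : ∀ z ∈ C, G.Adj x z → z = a ∨ z = c) : Rot G C a := by
  obtain ⟨a1, P1, e, haP1, haa1, hu, hP1⟩ := hP.uncons hac
  have hxP1 : x ∉ P1 := by
    intro h
    have : x ∈ C.erase x := e ▸ mem_insert_of_mem h
    exact notMem_erase _ _ this
  have haC : a ∈ C := mem_of_mem_erase (e ▸ mem_insert_self a P1)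
  have hP1C : ∀ z ∈ P1, z ∈ C := fun z hz => mem_of_mem_erase (e ▸ mem_insert_of_mem hz)
  have hxa1 : x ≠ a1 := fun h => hxP1 (h ▸ hP1.left_mem)
  have e2 : C.erase a = insert x P1 := by
    have e3 : C = insert x (insert a P1) := by rw [← e, insert_erase hxC]
    rw [e3, insert_comm, erase_insert]
    simp [hxa.ne', haP1]
  refine ⟨haC, a1, x, Ne.symm hxa1, ?_, haa1, hxa.symm, ?_⟩
  · rw [e2]
    refine hP1.append hxP1 hxc.symm ?_
    intro z hz hzx
    rcases hnb z (hP1C z hz) hzx.symm with h | h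
    · exact absurd (h ▸ hz) haP1
    · exact h
  · intro z hz haz
    have : z ∈ insert a (C.erase a) := by rw [insert_erase haC]; exact hz
    rw [e2] at this
    simp only [mem_insert] at this
    rcases this with rfl | rfl | h
    · exact absurd rfl haz.ne
    · exact Or.inr rfl
    · exact Or.inl (hu z h haz)

lemma rot_all {C : Finset V} {x : V} (h : Rot G C x) : ∀ y ∈ C, Rot G C y := by
  have hcn : Cn G C := by
    obtain ⟨hxC, a, c, hac, hP, hxa, hxc, hnb⟩ := h
    rw [← insert_erase hxC, Finset.insert_eq]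
    exact (Cn.singleton x).union hP.cn (Or.inl ⟨x, by simp, a, hP.left_mem, hxa⟩)
  by_contra hcon
  push Not at hcon
  obtain ⟨y, hy, hyn⟩ := hcon
  obtain ⟨p, hp, q, hq, hpq⟩ := hcn.2 (C.filter (fun z => Rot G C z)) (filter_subset _ _)
    ⟨x, mem_filter.2 ⟨h.1, h⟩⟩ ⟨y, mem_sdiff.2 ⟨hy, fun h' => hyn (mem_filter.1 h').2⟩⟩
  obtain ⟨hpC, -, a, c, hac, hP, hpa, hpc, hnb⟩ := mem_filter.1 hp
  obtain ⟨hqC, hq'⟩ := mem_sdiff.1 hq
  apply hq'
  refine mem_filter.2 ⟨hqC, ?_⟩
  rcases hnb q hqC hpq with rfl | rfl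
  · exact rot_first hpC hac hP hpa hpc hnb
  · exact rot_first hpC (Ne.symm hac) hP.symm hpc hpa (fun z hz h => (hnb z hz h).symm)

lemma rot_of {P : Finset V} {x a c : V} (hP : IPath G a c P) (hac : a ≠ c) (hx : x ∉ P)
    (hxa : G.Adj x a) (hxc : G.Adj x c) (hnb : ∀ z ∈ P, G.Adj x z → z = a ∨ z = c) :
    Rot G (insert x P) x := by
  refine ⟨mem_insert_self _ _, a, c, hac, by rwa [erase_insert hx], hxa, hxc, fun z hz h => ?_⟩
  rcases mem_insert.1 hz with rfl | hz
  · exact absurd rfl h.ne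
  · exact hnb z hz h

lemma Rot.tr {C : Finset V} {x : V} (h : Rot G C x) : Tr G (C.erase x) := by
  obtain ⟨_, a, c, _, hP, _⟩ := h
  exact hP.tr

/-- a hole covering everything -/
lemma dt_of_hole [Fintype V] {x : V} (h : Rot G univ x) : DT G 2 univ univ := by
  have hall := rot_all h
  have hcn : Cn G univ := by
    obtain ⟨hxC, a, c, hac, hP, hxa, hxc, hnb⟩ := h
    rw [← insert_erase hxC, Finset.insert_eq]
    exact (Cn.singleton x).union hP.cn (Or.inl ⟨x, by simp, a, hP.left_mem, hxa⟩)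
  refine dt_deg_two (R := univ) ?_ _ _ (Subset.refl _) le_rfl hcn
  intro y _
  obtain ⟨-, a, c, -, -, -, -, hnb⟩ := hall y (mem_univ _)
  have : (univ.filter (fun z => G.Adj y z)) ⊆ {a, c} := by
    intro z hz
    simp only [mem_filter, mem_univ, true_and] at hz
    simp only [mem_insert, mem_singleton]
    exact hnb z (mem_univ _) hz
  exact (card_le_card this).trans card_le_two

lemma dt_p4free [Fintype V] [Nonempty V] (h : P4Free G univ) : DT G 1 univ univ :=
  dt_cograph _ univ univ le_rfl univ_nonempty (Subset.refl _) h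
    (fun _ _ _ _ _ _ hz => absurd (mem_univ _) hz)

/-! ### the diamond -/

/-- no centre with three neighbours in an induced tree -/
def NoTheta (G : SimpleGraph V) : Prop :=
  ∀ (D : Finset V) (x : V), Tr G D → x ∉ D → (D.filter (fun z => G.Adj x z)).card ≤ 2

lemma noTheta_of (h : ¬ IndTopMinor diamond G) : NoTheta G := by
  intro D x hD hx
  by_contra hcon
  exact h (theta_of_tree D.card G D x le_rfl hD hx (by omega)).itm

/-- three distinct neighbours in a tree are impossible -/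
lemma NoTheta.three (h : NoTheta G) {D : Finset V} {x a b c : V} (hD : Tr G D) (hx : x ∉ D)
    (ha : a ∈ D) (hb : b ∈ D) (hc : c ∈ D) (hxa : G.Adj x a) (hxb : G.Adj x b) (hxc : G.Adj x c)
    (hab : a ≠ b) (hac : a ≠ c) (hbc : b ≠ c) : False := by
  have h1 := h D x hD hx
  have h2 : ({a, b, c} : Finset V) ⊆ D.filter (fun z => G.Adj x z) := by
    intro z hz
    simp only [mem_insert, mem_singleton] at hz
    rw [mem_filter]
    rcases hz with rfl | rfl | rfl
    exacts [⟨ha, hxa⟩, ⟨hb, hxb⟩, ⟨hc, hxc⟩]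
  have h3 := card_le_card h2
  have h4 : ({a, b, c} : Finset V).card = 3 := by
    rw [card_insert_of_notMem (by simp [hab, hac]), card_insert_of_notMem (by simpa using hbc),
      card_singleton]
  omega

/-- at most one attachment of an outside vertex on a hole -/
lemma NoTheta.attach (h : NoTheta G) {C : Finset V} {x : V} (hC : Rot G C x) (hcard : 4 ≤ C.card)
    {r y y' : V} (hr : r ∉ C) (hy : y ∈ C) (hy' : y' ∈ C) (hry : G.Adj r y) (hry' : G.Adj r y') :
    y = y' := by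
  by_contra hne
  by_cases h3 : ∃ z ∈ C, G.Adj r z ∧ z ≠ y ∧ z ≠ y'
  · obtain ⟨z, hz, hrz, hzy, hzy'⟩ := h3
    obtain ⟨w, hw⟩ : (C \ {y, y', z}).Nonempty := by
      rw [← card_pos]
      have h1 : ({y, y', z} : Finset V).card ≤ 3 := card_le_three
      have := le_card_sdiff {y, y', z} C
      omega
    simp only [mem_sdiff, mem_insert, mem_singleton, not_or] at hw
    obtain ⟨hwC, hwy, hwy', hwz⟩ := hw
    exact h.three (rot_all hC w hwC).tr (fun h' => hr (mem_of_mem_erase h'))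
      (mem_erase.2 ⟨Ne.symm hwy, hy⟩) (mem_erase.2 ⟨Ne.symm hwy', hy'⟩)
      (mem_erase.2 ⟨Ne.symm hwz, hz⟩) hry hry' hrz hne (Ne.symm hzy) (Ne.symm hzy')
  · push Not at h3
    obtain ⟨-, a, c, hac, hP, hya, hyc, hnb⟩ := rot_all hC y hy
    have hrC : r ∉ C.erase y := fun h' => hr (mem_of_mem_erase h')
    have haC : a ∈ C.erase y := hP.left_mem
    have hcC : c ∈ C.erase y := hP.right_mem
    have ht : Tr G (insert r (C.erase y)) := by
      refine .add hrC (mem_erase.2 ⟨Ne.symm hne, hy'⟩) hry' (fun z hz hrz => ?_) hP.tr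
      exact h3 z (mem_of_mem_erase hz) hrz (ne_of_mem_erase hz)
    refine h.three ht ?_ (mem_insert_of_mem haC) (mem_insert_of_mem hcC) (mem_insert_self _ _)
      hya hyc hry.symm hac ?_ ?_
    · rw [mem_insert, not_or]
      exact ⟨hry.ne', notMem_erase _ _⟩
    · rintro rfl; exact hrC haC
    · rintro rfl; exact hrC hcC

theorem hole_all [Fintype V] (h : NoTheta G) (h2 : TwoConn G) {C : Finset V} {x : V}
    (hC : Rot G C x) (hcard : 4 ≤ C.card) : C = univ := by
  by_contra hne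
  obtain ⟨v, hv⟩ : ∃ v, v ∉ C := by
    by_contra hcon
    push Not at hcon
    exact hne (eq_univ_iff_forall.2 hcon)
  obtain ⟨y, hy, r, hr, hyr⟩ := h2.conn.2 C (subset_univ _) ⟨x, hC.1⟩
    ⟨v, mem_sdiff.2 ⟨mem_univ _, hv⟩⟩
  have hrC : r ∉ C := (mem_sdiff.1 hr).2
  obtain ⟨-, a, c, hac, hP, hya, hyc, hnb⟩ := rot_all hC y hy
  have haC := hP.left_mem
  have hcC := hP.right_mem
  obtain ⟨R0, hR0, hpath⟩ := exists_ipath (h2.del y)
    (mem_erase.2 ⟨hyr.ne', mem_univ r⟩) (mem_erase.2 ⟨hya.ne', mem_univ a⟩)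
  set Q : V → Prop := fun z => ∃ w ∈ C.erase y, z = w ∨ G.Adj z w with hQ
  obtain ⟨r', R', hR', hpath', hQr', hQu⟩ := hpath.upto Q ⟨a, haC, Or.inl rfl⟩
  have hR'y : y ∉ R' := fun h' => notMem_erase _ _ (hR0 (hR' h'))
  have hr'C : r' ∉ C := by
    intro hr'C
    have hr'y : r' ≠ y := by rintro rfl; exact hR'y hpath'.right_mem
    have hrr' : r' ≠ r := by rintro rfl; exact hrC hr'C
    obtain ⟨b, R1, e, h1, h2', h3, h4⟩ := hpath'.symm.uncons hrr'
    have hb : b ∈ R1 := h4.left_mem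
    have : b = r' := hQu b (e ▸ mem_insert_of_mem hb)
      ⟨r', mem_erase.2 ⟨hr'y, hr'C⟩, Or.inr h2'.symm⟩
    exact h1 (this ▸ hb)
  have hR'C : ∀ z ∈ R', z ∉ C := by
    intro z hz hzC
    have hzy : z ≠ y := by rintro rfl; exact hR'y hz
    have := hQu z hz ⟨z, mem_erase.2 ⟨hzy, hzC⟩, Or.inl rfl⟩
    exact hr'C (this ▸ hzC)
  obtain ⟨w, hw, hr'w⟩ : ∃ w ∈ C.erase y, G.Adj r' w := by
    obtain ⟨w, hw, rfl | h'⟩ := hQr'
    · exact absurd (mem_of_mem_erase hw) hr'C
    · exact ⟨w, hw, h'⟩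
  obtain ⟨q, R2, hR2, hpath2, hyq, hyu⟩ := hpath'.ext (a := y) ⟨r, hpath'.left_mem, hyr⟩
  have htree : Tr G (C.erase y ∪ R2) := by
    refine hP.tr.union_path hpath2.symm (fun z hz hz' => hR'C z (hR2 hz) (mem_of_mem_erase hz')) w hw
      hr'w ?_ ?_
    · intro z hz hr'z
      exact h.attach hC hcard hr'C (mem_of_mem_erase hz) (mem_of_mem_erase hw) hr'z hr'w
    · intro z hz hzr' w' hw' hadj
      exact hzr' (hQu z (hR2 hz) ⟨w', hw', Or.inr hadj⟩)
  refine h.three htree ?_ (mem_union_left _ haC) (mem_union_left _ hcC)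
    (mem_union_right _ hpath2.left_mem) hya hyc hyq hac ?_ ?_
  · rw [mem_union, not_or]
    exact ⟨notMem_erase _ _, fun h' => hR'y (hR2 h')⟩
  · rintro rfl; exact hR'C _ (hR2 hpath2.left_mem) (mem_of_mem_erase haC)
  · rintro rfl; exact hR'C _ (hR2 hpath2.left_mem) (mem_of_mem_erase hcC)

/-- a connected graph is complete or has an induced path on three vertices -/
lemma complete_or [Fintype V] (hc : Cn G univ) : (∀ u v, u ≠ v → G.Adj u v) ∨
    ∃ x a c, a ≠ c ∧ G.Adj x a ∧ G.Adj x c ∧ ¬ G.Adj a c := by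
  by_contra hcon
  push Not at hcon
  obtain ⟨⟨u, v, huv, hn⟩, h2⟩ := hcon
  obtain ⟨p, hp, q, hq, hpq⟩ := hc.2 (insert u (univ.filter (fun z => G.Adj u z)))
    (subset_univ _) ⟨u, mem_insert_self _ _⟩ ⟨v, by simp [Ne.symm huv, hn]⟩
  simp only [mem_sdiff, mem_univ, true_and, mem_insert, mem_filter, not_or] at hp hq
  rcases hp with rfl | hp
  · exact hq.2 hpq
  · exact hq.2 (h2 p u q (Ne.symm hq.1) hp.symm hpq)

theorem dt_diamond [Fintype V] (h : ¬ IndTopMinor diamond G) (h2 : TwoConn G) :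
    DT G 2 univ univ := by
  have hN := noTheta_of h
  rcases complete_or h2.conn with hcomp | ⟨x, a, c, hac, hxa, hxc, hnac⟩
  · obtain ⟨x, _⟩ := h2.conn.1
    have : Nonempty V := ⟨x⟩
    refine (dt_p4free ?_).mono (by norm_num)
    intro a _ b _ c _ d _ hac _ _ _ _ _
    exact Or.inl (hcomp a c hac)
  · obtain ⟨P, hPx, hP⟩ := exists_ipath (h2.del x) (mem_erase.2 ⟨hxa.ne', mem_univ a⟩)
      (mem_erase.2 ⟨hxc.ne', mem_univ c⟩)
    have hxP : x ∉ P := fun h' => notMem_erase _ _ (hPx h')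
    have hnb : ∀ z ∈ P, G.Adj x z → z = a ∨ z = c := by
      intro z hz hxz
      by_contra hcon
      push Not at hcon
      exact hN.three hP.tr hxP hP.left_mem hP.right_mem hz hxa hxc hxz hac (Ne.symm hcon.1)
        (Ne.symm hcon.2)
    have hrot := rot_of hP hac hxP hxa hxc hnb
    have hcard : 4 ≤ (insert x P).card := by
      rw [card_insert_of_notMem hxP]
      obtain ⟨a1, P1, e, haP1, haa1, hu, hP1⟩ := hP.uncons hac
      have ha1c : a1 ≠ c := by rintro rfl; exact hnac haa1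
      obtain ⟨a2, P2, e', ha1P2, -, -, hP2⟩ := hP1.uncons ha1c
      rw [e, card_insert_of_notMem haP1, e', card_insert_of_notMem ha1P2]
      have := card_pos.2 ⟨_, hP2.left_mem⟩
      omega
    have := hole_all hN h2 hrot hcard
    rw [this] at hrot
    exact dt_of_hole hrot

/-! ### the paw -/

section paw

variable (hpaw : ¬ IndTopMinor paw G)

include hpaw

lemma no_pendant {P : Finset V} {x a c v : V} (hP : IPath G a c P) (hac : a ≠ c) (hx : x ∉ P)
    (hxa : G.Adj x a) (hxc : G.Adj x c) (hnb : ∀ z ∈ P, G.Adj x z → z = a ∨ z = c) (hv : v ∉ P)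
    (hxv : G.Adj x v) (hnv : ∀ z ∈ P, ¬ G.Adj v z) : False :=
  hpaw (paw_of_cycle P.card G P x a c v le_rfl hP hac hx hxa hxc hnb hv hxv hnv).itm

lemma no_paw {x a c v : V} (hxa : G.Adj x a) (hxc : G.Adj x c) (hac : G.Adj a c)
    (hxv : G.Adj x v) (hva : ¬ G.Adj v a) (hvc : ¬ G.Adj v c) (hva' : v ≠ a) (hvc' : v ≠ c) :
    False :=
  hpaw (paw_emb hxa hxc hac hxv hva hvc hva' hvc' (T := {x, a, c, v}) (by simp) (by simp)
    (by simp) (by simp)).itm

/-- every vertex has two neighbours on every triangle -/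
lemma two_of_triangle [Fintype V] (hc : Cn G univ) {p q r : V} (hpq : G.Adj p q) (hpr : G.Adj p r)
    (hqr : G.Adj q r) (v : V) :
    (G.Adj v p ∧ G.Adj v q) ∨ (G.Adj v p ∧ G.Adj v r) ∨ (G.Adj v q ∧ G.Adj v r) := by
  by_contra hcon
  set B : Finset V := univ.filter (fun v => (G.Adj v p ∧ G.Adj v q) ∨ (G.Adj v p ∧ G.Adj v r) ∨
    (G.Adj v q ∧ G.Adj v r)) with hB
  obtain ⟨u, hu, w, hw, huw⟩ := hc.2 B (subset_univ _)
    ⟨p, by simp only [hB, mem_filter, mem_univ, true_and]; tauto⟩ ⟨v, by simp [hB, hcon]⟩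
  simp only [hB, mem_filter, mem_univ, true_and] at hu
  have hw' := (mem_sdiff.1 hw).2
  simp only [hB, mem_filter, mem_univ, true_and] at hw'
  have hwp : w ≠ p := by
    rintro rfl; exact hw' (Or.inr (Or.inr ⟨hpq, hpr⟩))
  have hwq : w ≠ q := by
    rintro rfl
    have := hpq.symm
    exact hw' (by tauto)
  have hwr : w ≠ r := by
    rintro rfl
    have := hpr.symm
    have := hqr.symm
    exact hw' (by tauto)
  -- `w` has no neighbour on the triangle
  have n1 : ¬ G.Adj w p := by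
    intro h
    exact no_paw hpaw hpq hpr hqr h.symm (by tauto) (by tauto) hwq hwr
  have n2 : ¬ G.Adj w q := by
    intro h
    exact no_paw hpaw hpq.symm hqr hpr h.symm n1 (by tauto) hwp hwr
  have n3 : ¬ G.Adj w r := by
    intro h
    exact no_paw hpaw hpr.symm hqr.symm hpq h.symm n1 n2 hwp hwq
  rcases hu with ⟨h1, h2⟩ | ⟨h1, h2⟩ | ⟨h1, h2⟩
  · exact no_paw hpaw h1 h2 hpq huw n1 n2 hwp hwq
  · exact no_paw hpaw h1 h2 hpr huw n1 n3 hwp hwr
  · exact no_paw hpaw h1 h2 hqr huw n2 n3 hwq hwr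

lemma p4free_of_triangle [Fintype V] (hc : Cn G univ) {p q r : V} (hpq : G.Adj p q)
    (hpr : G.Adj p r) (hqr : G.Adj q r) : P4Free G univ := by
  intro a _ b _ c _ d _ hac had hbd hab hbc hcd
  by_contra hcon
  push Not at hcon
  obtain ⟨n1, n2, n3⟩ := hcon
  obtain ⟨t, hta, htb⟩ : ∃ t, G.Adj t a ∧ G.Adj t b := by
    rcases two_of_triangle hpaw hc hpq hpr hqr a with h | h | h <;>
      rcases two_of_triangle hpaw hc hpq hpr hqr b with h' | h' | h'
    · exact ⟨p, h.1.symm, h'.1.symm⟩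
    · exact ⟨p, h.1.symm, h'.1.symm⟩
    · exact ⟨q, h.2.symm, h'.1.symm⟩
    · exact ⟨p, h.1.symm, h'.1.symm⟩
    · exact ⟨p, h.1.symm, h'.1.symm⟩
    · exact ⟨r, h.2.symm, h'.2.symm⟩
    · exact ⟨q, h.1.symm, h'.2.symm⟩
    · exact ⟨r, h.2.symm, h'.2.symm⟩
    · exact ⟨q, h.1.symm, h'.1.symm⟩
  rcases two_of_triangle hpaw hc hab hta.symm htb.symm d with h | h | h
  · exact n2 h.1.symm
  · exact n2 h.1.symm
  · exact n3 h.1.symm

/-- an induced four-cycle `x a y b` and a pendant vertex at `x` -/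
lemma no_pendant4 {x a y b v : V} (hxa : G.Adj x a) (hay : G.Adj a y) (hyb : G.Adj y b)
    (hbx : G.Adj b x) (hxy : ¬ G.Adj x y) (hab : ¬ G.Adj a b) (hxy' : x ≠ y) (hab' : a ≠ b)
    (hxv : G.Adj x v) (hva : ¬ G.Adj v a) (hvy : ¬ G.Adj v y) (hvb : ¬ G.Adj v b) : False := by
  have hP : IPath G a b {a, y, b} := by
    refine .cons ?_ hay ?_ (.cons ?_ hyb ?_ (.single b))
    · simp only [mem_insert, mem_singleton, not_or]; exact ⟨hay.ne, hab'⟩
    · intro z hz haz
      simp only [mem_insert, mem_singleton] at hz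
      rcases hz with rfl | rfl
      · rfl
      · exact absurd haz hab
    · simpa using hyb.ne
    · intro z hz _; exact mem_singleton.1 hz
  refine no_pendant hpaw hP hab' ?_ hxa hbx.symm ?_ ?_ hxv ?_
  · simp only [mem_insert, mem_singleton, not_or]; exact ⟨hxa.ne, hxy', hbx.ne'⟩
  · intro z hz hxz
    simp only [mem_insert, mem_singleton] at hz
    rcases hz with rfl | rfl | rfl
    · exact Or.inl rfl
    · exact absurd hxz hxy
    · exact Or.inr rfl
  · simp only [mem_insert, mem_singleton, not_or]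
    refine ⟨?_, ?_, ?_⟩
    · rintro rfl; exact hvy hay
    · rintro rfl; exact hvb hyb
    · rintro rfl; exact hvy hyb.symm
  · intro z hz hvz
    simp only [mem_insert, mem_singleton] at hz
    rcases hz with rfl | rfl | rfl
    · exact hva hvz
    · exact hvy hvz
    · exact hvb hvz

lemma p4free_of_c4 [Fintype V] (hc : Cn G univ) (htf : ∀ x y z, G.Adj x y → G.Adj y z → ¬ G.Adj x z)
    {x a y b : V} (hxa : G.Adj x a) (hay : G.Adj a y) (hyb : G.Adj y b)
    (hbx : G.Adj b x) (hxy' : x ≠ y) (hab' : a ≠ b) : P4Free G univ := by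
  have hxy : ¬ G.Adj x y := htf x a y hxa hay
  have hab : ¬ G.Adj a b := htf a y b hay hyb
  -- attachments on the four-cycle
  have t1 : ∀ (x a y b : V), G.Adj x a → G.Adj a y → G.Adj y b → G.Adj b x → x ≠ y → a ≠ b →
      ∀ v, G.Adj v x → G.Adj v y := by
    intro x a y b hxa hay hyb hbx hxy' hab' v hvx
    by_contra hvy
    exact no_pendant4 hpaw hxa hay hyb hbx (htf x a y hxa hay) (htf a y b hay hyb) hxy' hab'
      hvx.symm (fun h => htf v x a hvx hxa h) hvy (fun h => htf v x b hvx hbx.symm h)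
  have s1 : ∀ v, G.Adj v x → G.Adj v y := t1 x a y b hxa hay hyb hbx hxy' hab'
  have s2 : ∀ v, G.Adj v y → G.Adj v x :=
    t1 y b x a hyb hbx hxa hay (Ne.symm hxy') (Ne.symm hab')
  have s3 : ∀ v, G.Adj v a → G.Adj v b := t1 a y b x hay hyb hbx hxa hab' (Ne.symm hxy')
  have s4 : ∀ v, G.Adj v b → G.Adj v a :=
    t1 b x a y hbx hxa hay hyb (Ne.symm hab') hxy'
  -- every vertex is attached
  have hall : ∀ v, G.Adj v x ∨ G.Adj v a := by
    by_contra hcon
    push Not at hcon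
    obtain ⟨v, hv⟩ := hcon
    obtain ⟨u, hu, w, hw, huw⟩ := hc.2 (univ.filter (fun v => G.Adj v x ∨ G.Adj v a))
      (subset_univ _) ⟨x, by simp [hxa]⟩ ⟨v, by simp [hv]⟩
    simp only [mem_filter, mem_univ, true_and] at hu
    have hw' := (mem_sdiff.1 hw).2
    simp only [mem_filter, mem_univ, true_and, not_or] at hw'
    have nwy : ¬ G.Adj w y := fun h => hw'.1 (s2 w h)
    have nwb : ¬ G.Adj w b := fun h => hw'.2 (s4 w h)
    rcases hu with h | h
    · have hua : u ≠ a := by rintro rfl; exact hw'.2 huw.symm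
      exact no_pendant4 hpaw (x := u) (a := x) (y := a) (b := y) h hxa hay (s1 u h).symm
        (fun h' => htf u x a h hxa h') hxy hua hxy' huw hw'.1 hw'.2 nwy
    · have hux : u ≠ x := by rintro rfl; exact hw'.1 huw.symm
      exact no_pendant4 hpaw (x := u) (a := a) (y := x) (b := b) h hxa.symm hbx.symm
        (s3 u h).symm (fun h' => htf u a x h hxa.symm h') hab hux hab' huw hw'.2 hw'.1 nwb
  have hnot : ∀ v, ¬ (G.Adj v x ∧ G.Adj v a) := fun v h => htf v x a h.1 hxa h.2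
  -- opposite types are adjacent
  have hopp : ∀ u v, G.Adj u x → G.Adj v a → G.Adj u v := by
    intro u v hu hv
    by_contra huv
    have hvx : v ≠ x := by rintro rfl; exact huv hu
    have huy := s1 u hu
    -- the cycle `a x u y` with pendant `v` at `a`
    have hua : a ≠ u := by rintro rfl; exact huv hv.symm
    exact no_pendant4 hpaw (x := a) (a := x) (y := u) (b := y) hxa.symm hu.symm huy hay.symm
      (fun h => hnot u ⟨hu, h.symm⟩) hxy hua hxy' hv.symm
      (fun h => hnot v ⟨h, hv⟩) (fun h => huv h.symm) (fun h => hnot v ⟨s2 v h, hv⟩)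
  intro p _ q _ r _ s _ _ _ _ hpq hqr hrs
  right; left
  rcases hall p with hp | hp
  · -- p type 1, q type 2, r type 1, s type 2
    have hq : G.Adj q a := (hall q).resolve_left (fun h => htf p q x hpq h hp)
    have hr : G.Adj r x := (hall r).resolve_right (fun h => htf q r a hqr h hq)
    have hs : G.Adj s a := (hall s).resolve_left (fun h => htf r s x hrs h hr)
    exact hopp p s hp hs
  · have hq : G.Adj q x := (hall q).resolve_right (fun h => htf p q a hpq h hp)
    have hr : G.Adj r a := (hall r).resolve_left (fun h => htf q r x hqr h hq)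
    have hs : G.Adj s x := (hall s).resolve_right (fun h => htf r s a hrs h hr)
    exact (hopp s p hs hp).symm

lemma hole_all_paw [Fintype V] (hc : Cn G univ) (htf : ∀ x y z, G.Adj x y → G.Adj y z → ¬ G.Adj x z)
    (hc4 : ∀ x a y b, G.Adj x a → G.Adj a y → G.Adj y b → G.Adj b x → x ≠ y → a = b)
    {C : Finset V} {x : V} (hC : Rot G C x) : C = univ := by
  by_contra hne
  obtain ⟨v, hv⟩ : ∃ v, v ∉ C := by
    by_contra hcon
    push Not at hcon
    exact hne (eq_univ_iff_forall.2 hcon)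
  obtain ⟨y, hy, v, hvC, hyv⟩ := hc.2 C (subset_univ _) ⟨x, hC.1⟩
    ⟨v, mem_sdiff.2 ⟨mem_univ _, hv⟩⟩
  have hvC : v ∉ C := (mem_sdiff.1 hvC).2
  obtain ⟨-, a, c, hac, hP, hya, hyc, hnb⟩ := rot_all hC y hy
  have hvP : v ∉ C.erase y := fun h => hvC (mem_of_mem_erase h)
  have hnva : ¬ G.Adj v a := htf v y a hyv.symm hya
  have hnvc : ¬ G.Adj v c := htf v y c hyv.symm hyc
  by_cases hex : ∃ z ∈ C.erase y, G.Adj v z
  swap
  · push Not at hex
    exact no_pendant hpaw hP hac (notMem_erase _ _) hya hyc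
      (fun z hz h => hnb z (mem_of_mem_erase hz) h) hvP hyv hex
  obtain ⟨z, hz, hvz⟩ := hex
  obtain ⟨a1, P1, e, haP1, haa1, hu, hP1⟩ := hP.uncons hac
  have hnac : ¬ G.Adj a c := htf a y c hya.symm hyc
  have ha1c : a1 ≠ c := by rintro rfl; exact hnac haa1
  obtain ⟨a2, P2, e', ha1P2, ha1a2, hu', hP2⟩ := hP1.uncons ha1c
  have hP2C : ∀ w ∈ P2, w ∈ C := by
    intro w hw
    apply mem_of_mem_erase (a := y)
    rw [e, e']
    exact mem_insert_of_mem (mem_insert_of_mem hw)
  have ha1C : a1 ∈ C.erase y := by rw [e]; exact mem_insert_of_mem hP1.left_mem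
  have haP2 : a ∉ P2 := fun h => haP1 (by rw [e']; exact mem_insert_of_mem h)
  have hva1 : ¬ G.Adj v a1 := by
    intro h
    have hav := hc4 y a a1 v hya haa1 h.symm hyv.symm
      (fun h' => notMem_erase y C (h' ▸ ha1C))
    exact hvP (hav ▸ hP.left_mem)
  have hzP2 : z ∈ P2 := by
    rw [e, e', mem_insert, mem_insert] at hz
    rcases hz with rfl | rfl | hz
    · exact absurd hvz hnva
    · exact absurd hvz hva1
    · exact hz
  obtain ⟨q, Q', hQ', hpath, hvq, huq⟩ := hP2.ext (a := v) ⟨z, hzP2, hvz⟩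
  have hvQ' : v ∉ Q' := fun h => hvC (hP2C v (hQ' h))
  have hpath' : IPath G v c (insert v Q') := .cons hvQ' hvq huq hpath
  have hvc : v ≠ c := by rintro rfl; exact hvQ' hpath.right_mem
  refine no_pendant hpaw hpath' hvc ?_ hyv hyc ?_ (v := a) ?_ hya ?_
  · rw [mem_insert, not_or]
    refine ⟨hyv.ne, fun h => ?_⟩
    have : y ∈ C.erase y := by
      rw [e, e']
      exact mem_insert_of_mem (mem_insert_of_mem (hQ' h))
    exact notMem_erase _ _ this
  · intro w hw hyw
    rcases mem_insert.1 hw with rfl | hw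
    · exact Or.inl rfl
    · rcases hnb w (hP2C w (hQ' hw)) hyw with h | h
      · exact absurd (hQ' (h ▸ hw)) haP2
      · exact Or.inr h
  · rw [mem_insert, not_or]
    refine ⟨?_, fun h => haP2 (hQ' h)⟩
    rintro rfl
    exact hvP hP.left_mem
  · intro w hw haw
    rcases mem_insert.1 hw with rfl | hw
    · exact hnva haw.symm
    · have := hu w (by rw [e']; exact mem_insert_of_mem (hQ' hw)) haw
      exact ha1P2 (this ▸ hQ' hw)

theorem dt_paw [Fintype V] (h2 : TwoConn G) : DT G 2 univ univ := by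
  obtain ⟨x, _⟩ := h2.conn.1
  have : Nonempty V := ⟨x⟩
  by_cases htri : ∃ p q r, G.Adj p q ∧ G.Adj p r ∧ G.Adj q r
  · obtain ⟨p, q, r, h1, h3, h4⟩ := htri
    exact (dt_p4free (p4free_of_triangle hpaw h2.conn h1 h3 h4)).mono (by norm_num)
  have htf : ∀ x y z, G.Adj x y → G.Adj y z → ¬ G.Adj x z := fun x y z h h' h'' =>
    htri ⟨x, y, z, h, h'', h'⟩
  by_cases hc4 : ∃ x a y b, G.Adj x a ∧ G.Adj a y ∧ G.Adj y b ∧ G.Adj b x ∧ x ≠ y ∧ a ≠ b
  · obtain ⟨x, a, y, b, k1, k2, k3, k4, k5, k6⟩ := hc4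
    exact (dt_p4free (p4free_of_c4 hpaw h2.conn htf k1 k2 k3 k4 k5 k6)).mono (by norm_num)
  have hc4' : ∀ x a y b, G.Adj x a → G.Adj a y → G.Adj y b → G.Adj b x → x ≠ y → a = b := by
    intro x a y b k1 k2 k3 k4 k5
    by_contra k6
    exact hc4 ⟨x, a, y, b, k1, k2, k3, k4, k5, k6⟩
  -- two neighbours of `x`
  have hcard := h2.card
  obtain ⟨y, hy⟩ : ∃ y, y ≠ x := by
    have : 1 < Fintype.card V := by omega
    exact Fintype.exists_ne_of_one_lt_card this x
  obtain ⟨x', hx', a, ha, hxa⟩ := h2.conn.2 {x} (subset_univ _) (by simp) ⟨y, by simp [hy]⟩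
  rw [mem_singleton] at hx'
  subst hx'
  obtain ⟨z, hz⟩ : ((univ.erase a).erase x').Nonempty := by
    rw [← card_pos, card_erase_of_mem (mem_erase.2 ⟨hxa.ne, mem_univ _⟩),
      card_erase_of_mem (mem_univ _), card_univ]
    omega
  obtain ⟨x'', hx'', c, hc, hxc⟩ := (h2.del a).2 {x'} (by simpa using hxa.ne) (by simp)
    ⟨z, mem_sdiff.2 ⟨mem_of_mem_erase hz, by simpa using ne_of_mem_erase hz⟩⟩
  rw [mem_singleton] at hx''
  subst hx''
  have hca : c ≠ a := ne_of_mem_erase (mem_sdiff.1 hc).1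
  obtain ⟨P, hPx, hP⟩ := exists_ipath (h2.del x'') (mem_erase.2 ⟨hxa.ne', mem_univ a⟩)
    (mem_erase.2 ⟨hxc.ne', mem_univ c⟩)
  have hxP : x'' ∉ P := fun h' => notMem_erase _ _ (hPx h')
  obtain ⟨a1, P1, e, haP1, haa1, hu, hP1⟩ := hP.uncons (Ne.symm hca)
  have hP1P : P1 ⊆ P := by rw [e]; exact subset_insert _ _
  obtain ⟨q, P', hP', hpath, hxq, huq⟩ := hP1.symm.ext (a := x'') ⟨c, hP1.right_mem, hxc⟩
  have haP' : a ∉ P' := fun h => haP1 (hP' h)
  have hpath' : IPath G a q (insert a P') :=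
    .cons haP' haa1 (fun z hz => hu z (hP' hz)) hpath.symm
  have haq : a ≠ q := by rintro rfl; exact haP' hpath.left_mem
  have hrot := rot_of (x := x'') hpath' haq (by
    rw [mem_insert, not_or]; exact ⟨hxa.ne, fun h => hxP (hP1P (hP' h))⟩) hxa hxq (by
    intro z hz hxz
    rcases mem_insert.1 hz with rfl | hz
    · exact Or.inl rfl
    · exact Or.inr (huq z hz hxz))
  have := hole_all_paw hpaw h2.conn htf hc4' hrot
  rw [this] at hrot
  exact dt_of_hole hrot

end paw

end Pool.Agent.H65I
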