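import Pool.Agent.H65I.Block
import Pool.Agent.H65I.Hole
import Pool.Agent.H65I.Cls

/-! Final assembly for MP_d0d08e_co. -/

namespace Pool.Agent.H65I

open Pool.Agent.H175R2 Finset Classical

lemma cliqueWidth_of_isEmpty {V : Type} [IsEmpty V] (G : SimpleGraph V) (c : ℕ) :
    cliqueWidth G ≤ c := by
  have : {k | CwLE G k} = ∅ := by
    rw [Set.eq_empty_iff_forall_notMem]
    rintro k ⟨W, G', l, hb, ⟨e⟩⟩
    have hW : ∀ {k : ℕ} {W : Type} {G' : SimpleGraph W} {l : W → Fin k}, CwBuilt k W G' l →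
        Nonempty W := by
      intro k W G' l hb
      induction hb with
      | single => exact ⟨()⟩
      | union V W G H l m _ _ h1 h2 => exact ⟨Sum.inl h1.some⟩
      | join _ _ _ _ _ _ _ h => exact h
      | relabel _ _ _ _ _ _ h => exact h
    obtain ⟨w⟩ := hW hb
    exact isEmptyElim (e.symm w)
  unfold cliqueWidth
  rw [this, Nat.sInf_empty]
  exact Nat.zero_le _

lemma not_itm_comap {W : Type} {H : SimpleGraph W} {V U : Type} (G : SimpleGraph V) (e : U ↪ V)
    (h : ¬ IndTopMinor H G) : ¬ IndTopMinor H (G.comap e) :=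
  fun h' => h (h'.trans_emb (SimpleGraph.Embedding.comap e G))

theorem bdd_of_twoConn {W : Type} (H : SimpleGraph W) (K : ℕ)
    (h2 : ∀ (V : Type) [Fintype V] (G : SimpleGraph V), TwoConn G → ¬ IndTopMinor H G →
      DT G K univ univ) : BddCwITM H := by
  refine ⟨3 * (K + 1 + 1), fun V _ G hG => ?_⟩
  rcases isEmpty_or_nonempty V with hV | hV
  · exact cliqueWidth_of_isEmpty G _
  · have : Fintype V := Fintype.ofFinite V
    exact cliqueWidth_le_of_dt (dt_of_twoConn (fun G => ¬ IndTopMinor H G)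
      (fun G e h => not_itm_comap G e h) K h2 V G hG)

theorem bdd_diamond : BddCwITM diamond := bdd_of_twoConn diamond 2 fun _ _ _ h2 h => dt_diamond h h2

theorem bdd_paw : BddCwITM paw := bdd_of_twoConn paw 2 fun _ _ _ h2 h => dt_paw h h2

theorem bdd_Q4 : BddCwITM Q4 := by
  refine ⟨3 * (1 + 1), fun V _ G hG => ?_⟩
  rcases isEmpty_or_nonempty V with hV | hV
  · exact cliqueWidth_of_isEmpty G _
  · have : Fintype V := Fintype.ofFinite V
    refine cliqueWidth_le_of_dt (dt_p4free ?_)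
    intro a _ b _ c _ d _ hac had hbd hab hbc hcd
    by_contra hcon
    push Not at hcon
    obtain ⟨n1, n2, n3⟩ := hcon
    refine hG (indTopMinor_of_emb (.iso (SimpleGraph.Iso.refl (G := Q4))) ⟨⟨![a, b, c, d], ?_⟩, ?_⟩)
    · have := hab.ne
      have := hbc.ne
      have := hcd.ne
      intro i j hij
      fin_cases i <;> fin_cases j <;> simp_all
    · have := hab.symm
      have := hbc.symm
      have := hcd.symm
      have n1' : ¬ G.Adj c a := fun h => n1 h.symm
      have n2' : ¬ G.Adj d a := fun h => n2 h.symm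
      have n3' : ¬ G.Adj d b := fun h => n3 h.symm
      intro i j
      fin_cases i <;> fin_cases j <;> simp_all [Q4]

lemma Q4_iso : Nonempty (Q4 ≃g SimpleGraph.pathGraph 4) := by
  refine ⟨⟨Equiv.refl _, ?_⟩⟩
  intro i j
  simp only [Equiv.refl_apply, SimpleGraph.pathGraph_adj, Q4, SimpleGraph.fromRel_adj, ne_eq,
    Fin.ext_iff]
  omega

/-- The full classification. -/
theorem main {W : Type} [Finite W] (H : SimpleGraph W) :
    BddCwITM H ↔ (Nonempty (H ↪g SimpleGraph.pathGraph 4) ∨ Nonempty (H ↪g paw) ∨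
      Nonempty (H ↪g diamond)) := by
  obtain ⟨e⟩ := Q4_iso
  constructor
  · intro h
    rcases inGood_of_bdd h with ⟨⟨f⟩⟩ | h | h
    · exact Or.inl ⟨e.toEmbedding.comp f⟩
    · exact Or.inr (Or.inl h)
    · exact Or.inr (Or.inr h)
  · rintro (⟨⟨f⟩⟩ | ⟨⟨f⟩⟩ | ⟨⟨f⟩⟩)
    · exact bdd_Q4.mono (e.symm.toEmbedding.comp f)
    · exact bdd_paw.mono f
    · exact bdd_diamond.mono f

end Pool.Agent.H65I
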