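import Pool.Agent.H175R2.Conn

/-! Induced paths and induced trees as finite vertex sets. -/

namespace Pool.Agent.H65I

open Pool.Agent.H175R2 Finset Classical

variable {V : Type} {G : SimpleGraph V}

/-- `P` is the vertex set of an induced path of `G` from `a` to `c`. -/
inductive IPath (G : SimpleGraph V) : V → V → Finset V → Prop
  | single (a : V) : IPath G a a {a}
  | cons {a b c : V} {P : Finset V} (ha : a ∉ P) (hab : G.Adj a b)
      (hu : ∀ z ∈ P, G.Adj a z → z = b) (h : IPath G b c P) : IPath G a c (insert a P)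

lemma IPath.left_mem {a c : V} {P : Finset V} (h : IPath G a c P) : a ∈ P := by
  cases h with
  | single => simp
  | cons => simp

lemma IPath.right_mem {a c : V} {P : Finset V} (h : IPath G a c P) : c ∈ P := by
  induction h with
  | single => simp
  | cons ha hab hu h ih => exact mem_insert_of_mem ih

lemma IPath.eq_single {a : V} {P : Finset V} (h : IPath G a a P) : P = {a} := by
  cases h with
  | single => rfl
  | cons ha hab hu h => exact absurd h.right_mem ha

/-- the first step of a nontrivial path -/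
lemma IPath.uncons {a c : V} {P : Finset V} (h : IPath G a c P) (hac : a ≠ c) :
    ∃ b P', P = insert a P' ∧ a ∉ P' ∧ G.Adj a b ∧ (∀ z ∈ P', G.Adj a z → z = b) ∧
      IPath G b c P' := by
  cases h with
  | single => exact absurd rfl hac
  | cons ha hab hu h => exact ⟨_, _, rfl, ha, hab, hu, h⟩

/-- from the last neighbour of `a` on -/
lemma IPath.ext {a b c : V} {P : Finset V} (h : IPath G b c P) (hn : ∃ z ∈ P, G.Adj a z) :
    ∃ q P', P' ⊆ P ∧ IPath G q c P' ∧ G.Adj a q ∧ ∀ z ∈ P', G.Adj a z → z = q := by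
  induction h with
  | single c =>
    obtain ⟨z, hz, hadj⟩ := hn
    rw [mem_singleton] at hz
    subst hz
    exact ⟨z, {z}, Subset.refl _, .single _, hadj, fun w hw _ => mem_singleton.1 hw⟩
  | @cons b b1 c P1 hb hbb hu h ih =>
    by_cases h1 : ∃ z ∈ P1, G.Adj a z
    · obtain ⟨q, P', hP', hq⟩ := ih h1
      exact ⟨q, P', hP'.trans (subset_insert _ _), hq⟩
    · push Not at h1
      obtain ⟨z, hz, hadj⟩ := hn
      rcases mem_insert.1 hz with rfl | hz
      · refine ⟨z, _, Subset.refl _, .cons hb hbb hu h, hadj, fun w hw haw => ?_⟩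
        rcases mem_insert.1 hw with rfl | hw
        · rfl
        · exact absurd haw (h1 w hw)
      · exact absurd hadj (h1 z hz)

lemma IPath.suffix {a c z : V} {P : Finset V} (h : IPath G a c P) (hz : z ∈ P) :
    ∃ P', P' ⊆ P ∧ IPath G z c P' := by
  induction h with
  | single c =>
    rw [mem_singleton] at hz
    subst hz
    exact ⟨_, Subset.refl _, .single _⟩
  | @cons b b1 c P1 hb hbb hu h ih =>
    rcases mem_insert.1 hz with rfl | hz
    · exact ⟨_, Subset.refl _, .cons hb hbb hu h⟩
    · obtain ⟨P', h1, h2⟩ := ih hz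
      exact ⟨P', h1.trans (subset_insert _ _), h2⟩

lemma IPath.append {a c d : V} {P : Finset V} (h : IPath G a c P) (hd : d ∉ P) (hcd : G.Adj c d)
    (hu : ∀ z ∈ P, G.Adj z d → z = c) : IPath G a d (insert d P) := by
  induction h with
  | single c =>
    have e : (insert d {c} : Finset V) = insert c {d} := by
      ext z; simp only [mem_insert, mem_singleton]; tauto
    rw [e]
    refine .cons ?_ hcd (fun z hz _ => mem_singleton.1 hz) (.single d)
    rw [mem_singleton]; exact hcd.ne
  | @cons b b1 c P1 hb hbb hub h ih =>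
    have hdP1 : d ∉ P1 := fun h' => hd (mem_insert_of_mem h')
    have hdb : d ≠ b := fun h' => hd (h' ▸ mem_insert_self _ _)
    have h1 := ih hdP1 hcd (fun z hz => hu z (mem_insert_of_mem hz))
    rw [Finset.insert_comm]
    refine .cons ?_ hbb ?_ h1
    · rw [mem_insert, not_or]; exact ⟨Ne.symm hdb, hb⟩
    · intro z hz hbz
      rcases mem_insert.1 hz with rfl | hz
      · have := hu b (mem_insert_self _ _) hbz
        rw [this] at hb
        exact absurd h.right_mem hb
      · exact hub z hz hbz

lemma IPath.symm {a c : V} {P : Finset V} (h : IPath G a c P) : IPath G c a P := by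
  induction h with
  | single c => exact .single c
  | @cons b b1 c P1 hb hbb hub h ih =>
    exact ih.append hb hbb.symm (fun z hz hzb => hub z hz hzb.symm)

/-- the part up to the first vertex satisfying `Q` -/
lemma IPath.upto {a c : V} {P : Finset V} (h : IPath G a c P) (Q : V → Prop) (hQ : Q c) :
    ∃ c' P', P' ⊆ P ∧ IPath G a c' P' ∧ Q c' ∧ ∀ z ∈ P', Q z → z = c' := by
  induction h with
  | single c => exact ⟨c, {c}, Subset.refl _, .single _, hQ, fun z hz _ => mem_singleton.1 hz⟩
  | @cons b b1 c P1 hb hbb hub h ih =>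
    by_cases hQb : Q b
    · exact ⟨b, {b}, by simp, .single _, hQb, fun z hz _ => mem_singleton.1 hz⟩
    · obtain ⟨c', P', h1, h2, h3, h4⟩ := ih hQ
      refine ⟨c', insert b P', insert_subset_insert _ h1,
        .cons (fun h' => hb (h1 h')) hbb (fun z hz => hub z (h1 hz)) h2, h3, fun z hz hQz => ?_⟩
      rcases mem_insert.1 hz with rfl | hz
      · exact absurd hQz hQb
      · exact h4 z hz hQz

lemma IPath.cn {a c : V} {P : Finset V} (h : IPath G a c P) : Cn G P := by
  induction h with
  | single c => exact Cn.singleton c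
  | @cons b b1 c P1 hb hbb hub h ih =>
    rw [Finset.insert_eq]
    exact (Cn.singleton b).union ih (Or.inl ⟨b, by simp, b1, h.left_mem, hbb⟩)

lemma IPath.congr {G' : SimpleGraph V} {a c : V} {P : Finset V} (h : IPath G a c P)
    (hG : ∀ x ∈ P, ∀ y ∈ P, (G.Adj x y ↔ G'.Adj x y)) : IPath G' a c P := by
  induction h with
  | single c => exact .single c
  | @cons b b1 c P1 hb hbb hub h ih =>
    have hb' := mem_insert_self b P1
    refine .cons hb ((hG b hb' b1 (mem_insert_of_mem h.left_mem)).1 hbb) (fun z hz hbz =>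
      hub z hz ((hG b hb' z (mem_insert_of_mem hz)).2 hbz)) (ih fun x hx y hy =>
        hG x (mem_insert_of_mem hx) y (mem_insert_of_mem hy))

theorem exists_ipath {S : Finset V} (hS : Cn G S) {a c : V} (ha : a ∈ S) (hc : c ∈ S) :
    ∃ P, P ⊆ S ∧ IPath G a c P := by
  by_contra hcon
  obtain ⟨x, hx, y, hy, hxy⟩ := hS.2 (S.filter fun v => ∃ P, P ⊆ S ∧ IPath G v c P)
    (filter_subset _ _) ⟨c, mem_filter.2 ⟨hc, {c}, by simpa using hc, .single c⟩⟩
    ⟨a, mem_sdiff.2 ⟨ha, fun h => hcon (mem_filter.1 h).2⟩⟩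
  obtain ⟨hxS, P, hPS, hP⟩ := mem_filter.1 hx
  obtain ⟨hyS, hy'⟩ := mem_sdiff.1 hy
  apply hy'
  refine mem_filter.2 ⟨hyS, ?_⟩
  by_cases hyP : y ∈ P
  · obtain ⟨P', h1, h2⟩ := hP.suffix hyP
    exact ⟨P', h1.trans hPS, h2⟩
  · obtain ⟨q, P', h1, h2, h3, h4⟩ := hP.ext (a := y) ⟨x, hP.left_mem, hxy.symm⟩
    exact ⟨insert y P', insert_subset hyS (h1.trans hPS),
      .cons (fun h => hyP (h1 h)) h3 h4 h2⟩

/-- `D` induces a tree, built by adding leaves. -/
inductive Tr (G : SimpleGraph V) : Finset V → Prop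
  | single (x : V) : Tr G {x}
  | add {D : Finset V} {a y : V} (ha : a ∉ D) (hy : y ∈ D) (hay : G.Adj a y)
      (hu : ∀ z ∈ D, G.Adj a z → z = y) (h : Tr G D) : Tr G (insert a D)

lemma IPath.tr {a c : V} {P : Finset V} (h : IPath G a c P) : Tr G P := by
  induction h with
  | single c => exact .single c
  | @cons b b1 c P1 hb hbb hub h ih => exact .add hb h.left_mem hbb hub ih

lemma Tr.cn {D : Finset V} (h : Tr G D) : Cn G D := by
  induction h with
  | single x => exact Cn.singleton x
  | @add D a y ha hy hay hu h ih =>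
    rw [Finset.insert_eq]
    exact (Cn.singleton a).union ih (Or.inl ⟨a, by simp, y, hy, hay⟩)

lemma Tr.congr {G' : SimpleGraph V} {D : Finset V} (h : Tr G D)
    (hG : ∀ x ∈ D, ∀ y ∈ D, (G.Adj x y ↔ G'.Adj x y)) : Tr G' D := by
  induction h with
  | single c => exact .single c
  | @add D a y ha hy hay hu h ih =>
    have hb' := mem_insert_self a D
    refine .add ha hy ((hG a hb' y (mem_insert_of_mem hy)).1 hay) (fun z hz hbz =>
      hu z hz ((hG a hb' z (mem_insert_of_mem hz)).2 hbz)) (ih fun x hx y hy =>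
        hG x (mem_insert_of_mem hx) y (mem_insert_of_mem hy))

/-- glue a path to a tree -/
lemma Tr.union_path {r b : V} {R : Finset V} (hR : IPath G r b R) :
    ∀ {D : Finset V}, Tr G D → (∀ z ∈ R, z ∉ D) → ∀ w ∈ D, G.Adj r w →
    (∀ z ∈ D, G.Adj r z → z = w) → (∀ z ∈ R, z ≠ r → ∀ w ∈ D, ¬ G.Adj z w) → Tr G (D ∪ R) := by
  induction hR with
  | single r =>
    intro D hD hdis w hw hrw hu _
    have e : D ∪ {r} = insert r D := by
      ext z; simp only [mem_union, mem_singleton, mem_insert]; tauto
    rw [e]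
    exact .add (hdis r (by simp)) hw hrw hu hD
  | @cons r r1 c R1 hr hrr hur h ih =>
    intro D hD hdis w hw hrw hu hno
    have e : D ∪ insert r R1 = insert r D ∪ R1 := by
      ext z; simp only [mem_union, mem_insert]; tauto
    rw [e]
    have hr1 : r1 ∈ R1 := h.left_mem
    have hr1r : r1 ≠ r := fun h' => hr (h' ▸ hr1)
    refine ih (.add (hdis r (mem_insert_self _ _)) hw hrw hu hD) ?_ r (mem_insert_self _ _)
      hrr.symm ?_ ?_
    · intro z hz hz'
      rcases mem_insert.1 hz' with rfl | hz'
      · exact hr hz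
      · exact hdis z (mem_insert_of_mem hz) hz'
    · intro z hz hrz
      rcases mem_insert.1 hz with rfl | hz
      · rfl
      · exact absurd hrz (hno r1 (mem_insert_of_mem hr1) hr1r z hz)
    · intro z hz hzr w' hw' hadj
      have hzr' : z ≠ r := fun h' => hr (h' ▸ hz)
      rcases mem_insert.1 hw' with rfl | hw'
      · exact hzr (hur z hz hadj.symm)
      · exact hno z (mem_insert_of_mem hz) hzr' w' hw' hadj

/-- `l` is a leaf of `D`, attached at `p` -/
def Leaf (G : SimpleGraph V) (D : Finset V) (l p : V) : Prop :=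
  l ∈ D ∧ p ∈ D ∧ G.Adj l p ∧ ∀ z ∈ D, G.Adj l z → z = p

lemma Tr.two_leaves {D : Finset V} (h : Tr G D) (hD : 2 ≤ D.card) :
    ∃ l1 p1 l2 p2, l1 ≠ l2 ∧ Leaf G D l1 p1 ∧ Leaf G D l2 p2 := by
  induction h with
  | single x => simp at hD
  | @add D a y ha hy hay hu h ih =>
    have hleaf : Leaf G (insert a D) a y := by
      refine ⟨mem_insert_self _ _, mem_insert_of_mem hy, hay, fun z hz haz => ?_⟩
      rcases mem_insert.1 hz with rfl | hz
      · exact absurd rfl haz.ne
      · exact hu z hz haz
    by_cases h2 : 2 ≤ D.card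
    · obtain ⟨l1, p1, l2, p2, hne, h1, h2⟩ := ih h2
      have key : ∀ l p, l ≠ y → Leaf G D l p → Leaf G (insert a D) l p := by
        rintro l p hly ⟨k1, k2, k3, k4⟩
        refine ⟨mem_insert_of_mem k1, mem_insert_of_mem k2, k3, fun z hz hlz => ?_⟩
        rcases mem_insert.1 hz with rfl | hz
        · exact absurd (hu l k1 hlz.symm) hly
        · exact k4 z hz hlz
      by_cases h1y : l1 = y
      · refine ⟨a, y, l2, p2, ?_, hleaf, key l2 p2 (fun h' => hne (h1y.trans h'.symm)) h2⟩
        rintro rfl; exact ha h2.1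
      · refine ⟨a, y, l1, p1, ?_, hleaf, key l1 p1 h1y h1⟩
        rintro rfl; exact ha h1.1
    · have hDy : D = {y} := by
        apply (Finset.eq_singleton_iff_unique_mem).2 ⟨hy, fun z hz => ?_⟩
        by_contra hne
        exact h2 (Finset.one_lt_card.2 ⟨z, hz, y, hy, hne⟩)
      subst hDy
      refine ⟨a, y, y, a, hay.ne, hleaf, by simp, by simp, hay.symm, fun z hz hyz => ?_⟩
      simp only [mem_insert, mem_singleton] at hz
      rcases hz with rfl | rfl
      · rfl
      · exact absurd rfl hyz.ne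

lemma Tr.exists_nbr {D : Finset V} (h : Tr G D) (hD : 2 ≤ D.card) {x : V} (hx : x ∈ D) :
    ∃ y ∈ D, G.Adj x y := by
  obtain ⟨y, hy, hyx⟩ : ∃ y ∈ D, y ≠ x := Finset.exists_mem_ne (by omega) x
  obtain ⟨a, ha, b, hb, hab⟩ := h.cn.2 {x} (by simpa using hx) (by simp)
    ⟨y, mem_sdiff.2 ⟨hy, by simpa using hyx⟩⟩
  rw [mem_singleton] at ha
  subst ha
  exact ⟨b, (mem_sdiff.1 hb).1, hab⟩

lemma Tr.erase_leaf {D : Finset V} (h : Tr G D) {l p : V} (hl : Leaf G D l p) :
    Tr G (D.erase l) := by
  induction h generalizing l p with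
  | single x =>
    obtain ⟨h1, h2, h3, _⟩ := hl
    rw [mem_singleton] at h1 h2
    subst h1; subst h2
    exact absurd rfl h3.ne
  | @add D a y ha hy hay hu h ih =>
    obtain ⟨h1, h2, h3, h4⟩ := hl
    by_cases hla : l = a
    · subst hla
      rw [erase_insert ha]; exact h
    · have hlD : l ∈ D := (mem_insert.1 h1).resolve_left hla
      by_cases hcard : 2 ≤ D.card
      · obtain ⟨q, hq, hlq⟩ := h.exists_nbr hcard hlD
        have hqp : q = p := h4 q (mem_insert_of_mem hq) hlq
        have hla' : ¬ G.Adj l a := by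
          intro h'
          have := h4 a (mem_insert_self _ _) h'
          rw [this, ← hqp] at ha
          exact ha hq
        have hly : l ≠ y := by rintro rfl; exact hla' hay.symm
        have := ih ⟨hlD, hqp ▸ hq, h3, fun z hz => h4 z (mem_insert_of_mem hz)⟩
        rw [erase_insert_of_ne (Ne.symm hla)]
        exact .add (fun h' => ha (mem_of_mem_erase h')) (mem_erase.2 ⟨Ne.symm hly, hy⟩) hay
          (fun z hz => hu z (mem_of_mem_erase hz)) this
      · have hDy : D = {l} := by
          apply (Finset.eq_singleton_iff_unique_mem).2 ⟨hlD, fun z hz => ?_⟩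
          by_contra hne
          exact hcard (Finset.one_lt_card.2 ⟨z, hz, l, hlD, hne⟩)
        subst hDy
        have : (insert a {l} : Finset V).erase l = {a} := by
          ext z; simp only [mem_erase, mem_insert, mem_singleton]
          constructor
          · tauto
          · rintro rfl; exact ⟨Ne.symm hla, Or.inl rfl⟩
        rw [this]; exact .single a

end Pool.Agent.H65I
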