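import Pool.Agent.H65I.Defs

namespace Pool.Agent.H65I

open Pool.Agent.H175R2

section basic

variable {V : Type} {G : SimpleGraph V} {u v : V}

@[simp] lemma sub_some_some {a b : V} : (subdivideEdge G u v).Adj (some a) (some b) ↔
    (G.Adj a b ∧ ¬ (a = u ∧ b = v) ∧ ¬ (a = v ∧ b = u)) := by
  simp only [subdivideEdge, SimpleGraph.fromRel_adj, Option.some.injEq, reduceCtorEq, false_and,
    or_false, ne_eq]
  constructor
  · rintro ⟨h1, ⟨a', b', rfl, rfl, h⟩ | ⟨a', b', rfl, rfl, h⟩⟩
    · exact h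
    · exact ⟨h.1.symm, fun h' => h.2.2 ⟨h'.2, h'.1⟩, fun h' => h.2.1 ⟨h'.2, h'.1⟩⟩
  · intro h
    exact ⟨h.1.ne, Or.inl ⟨a, b, rfl, rfl, h⟩⟩

@[simp] lemma sub_none_some {a : V} : (subdivideEdge G u v).Adj none (some a) ↔
    (a = u ∨ a = v) := by
  simp [subdivideEdge, SimpleGraph.fromRel_adj]

@[simp] lemma sub_some_none {a : V} : (subdivideEdge G u v).Adj (some a) none ↔
    (a = u ∨ a = v) := by
  rw [SimpleGraph.adj_comm, sub_none_some]

@[simp] lemma sub_none_none : ¬ (subdivideEdge G u v).Adj none none := by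
  intro h; exact h.ne rfl

/-- subdividing transports along an embedding -/
def subEmb {U : Type} {K : SimpleGraph U} (f : K ↪g G) (a b : U) :
    subdivideEdge K a b ↪g subdivideEdge G (f a) (f b) where
  toFun := Option.map f
  inj' := Option.map_injective f.injective
  map_rel_iff' := by
    intro x y
    rcases x with _ | x <;> rcases y with _ | y
    · simp
    · simp only [Function.Embedding.coeFn_mk, Option.map_none, Option.map_some, sub_none_some,
        EmbeddingLike.apply_eq_iff_eq]
    · simp only [Function.Embedding.coeFn_mk, Option.map_none, Option.map_some, sub_some_none,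
        EmbeddingLike.apply_eq_iff_eq]
    · simp only [Function.Embedding.coeFn_mk, Option.map_some, sub_some_some,
        EmbeddingLike.apply_eq_iff_eq, SimpleGraph.Embedding.map_adj_iff]

end basic

/-- prove an invariant of all subdivisions -/
theorem IsSubdivision.inv {W : Type} {H : SimpleGraph W}
    (P : ∀ {U : Type}, SimpleGraph U → Prop)
    (hiso : ∀ {U U' : Type} {K : SimpleGraph U} {K' : SimpleGraph U'}, (K ≃g K') → P K → P K')
    (hstep : ∀ {U : Type} {K : SimpleGraph U} {u v : U}, K.Adj u v → P K → P (subdivideEdge K u v))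
    (h0 : P H) {U : Type} {K : SimpleGraph U} (h : IsSubdivision H K) : P K := by
  induction h with
  | iso e => exact hiso e h0
  | step h huv e ih => exact hiso e (hstep huv ih)

lemma IsSubdivision.congr {W U U' : Type} {H : SimpleGraph W} {K : SimpleGraph U}
    {K' : SimpleGraph U'} (h : IsSubdivision H K) (e : K ≃g K') : IsSubdivision H K' := by
  cases h with
  | iso f => exact .iso (f.trans e)
  | step h huv f => exact .step h huv (f.trans e)

lemma indTopMinor_of_emb {W U V : Type} {H : SimpleGraph W} {K : SimpleGraph U} {G : SimpleGraph V}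
    (h : IsSubdivision H K) (f : K ↪g G) : IndTopMinor H G := by
  refine ⟨Set.range f, h.congr ?_⟩
  exact {
    toEquiv := Equiv.ofInjective f f.injective
    map_rel_iff' := by
      intro a b
      simp }

lemma IndTopMinor.exists_emb {W V : Type} {H : SimpleGraph W} {G : SimpleGraph V}
    (h : IndTopMinor H G) : ∃ (U : Type) (K : SimpleGraph U), IsSubdivision H K ∧
      Nonempty (K ↪g G) := by
  obtain ⟨S, hS⟩ := h
  exact ⟨_, _, hS, ⟨SimpleGraph.Embedding.induce S⟩⟩

/-- monotonicity in `H` -/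
theorem IsSubdivision.mono {W W' : Type} {H : SimpleGraph W} {H' : SimpleGraph W'}
    (f : H' ↪g H) {U : Type} {K : SimpleGraph U} (h : IsSubdivision H K) :
    ∃ (U' : Type) (K' : SimpleGraph U'), IsSubdivision H' K' ∧ Nonempty (K' ↪g K) := by
  induction h with
  | iso e => exact ⟨W', H', .iso SimpleGraph.Iso.refl, ⟨e.toEmbedding.comp f⟩⟩
  | @step U U1 K K1 u v h huv e ih =>
    obtain ⟨U', K', hK', ⟨g⟩⟩ := ih
    by_cases hu : ∃ a, g a = u
    · by_cases hv : ∃ b, g b = v
      · obtain ⟨a, rfl⟩ := hu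
        obtain ⟨b, rfl⟩ := hv
        exact ⟨_, _, .step hK' (g.map_adj_iff.1 huv) SimpleGraph.Iso.refl,
          ⟨e.toEmbedding.comp (subEmb g a b)⟩⟩
      · refine ⟨U', K', hK', ⟨e.toEmbedding.comp ⟨⟨fun x => some (g x), ?_⟩, ?_⟩⟩⟩
        · intro x y hxy
          exact g.injective (Option.some.inj hxy)
        · intro x y
          simp only [Function.Embedding.coeFn_mk, sub_some_some, SimpleGraph.Embedding.map_adj_iff,
            and_iff_left_iff_imp]
          intro _
          exact ⟨fun h => hv ⟨y, h.2⟩, fun h => hv ⟨x, h.1⟩⟩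
    · refine ⟨U', K', hK', ⟨e.toEmbedding.comp ⟨⟨fun x => some (g x), ?_⟩, ?_⟩⟩⟩
      · intro x y hxy
        exact g.injective (Option.some.inj hxy)
      · intro x y
        simp only [Function.Embedding.coeFn_mk, sub_some_some, SimpleGraph.Embedding.map_adj_iff,
          and_iff_left_iff_imp]
        intro _
        exact ⟨fun h => hu ⟨x, h.1⟩, fun h => hu ⟨y, h.2⟩⟩

theorem IndTopMinor.mono {W W' V : Type} {H : SimpleGraph W} {H' : SimpleGraph W'}
    {G : SimpleGraph V} (f : H' ↪g H) (h : IndTopMinor H G) : IndTopMinor H' G := by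
  obtain ⟨U, K, hK, ⟨g⟩⟩ := h.exists_emb
  obtain ⟨U', K', hK', ⟨g'⟩⟩ := hK.mono f
  exact indTopMinor_of_emb hK' (g.comp g')

theorem IndTopMinor.trans_emb {W V V' : Type} {H : SimpleGraph W}
    {G : SimpleGraph V} {G' : SimpleGraph V'} (h : IndTopMinor H G) (f : G ↪g G') :
    IndTopMinor H G' := by
  obtain ⟨U, K, hK, ⟨g⟩⟩ := h.exists_emb
  exact indTopMinor_of_emb hK (f.comp g)

theorem BddCwITM.mono {W W' : Type} {H : SimpleGraph W} {H' : SimpleGraph W'} (f : H' ↪g H)
    (h : BddCwITM H) : BddCwITM H' := by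
  obtain ⟨c, hc⟩ := h
  exact ⟨c, fun V _ G hG => hc V G fun h => hG (h.mono f)⟩

/-! ### degrees -/

/-- `x` has at least `n` neighbours -/
def DegGE {U : Type} (K : SimpleGraph U) (x : U) (n : ℕ) : Prop :=
  ∃ f : Fin n → U, Function.Injective f ∧ ∀ i, K.Adj x (f i)

lemma DegGE.emb {U U' : Type} {K : SimpleGraph U} {K' : SimpleGraph U'} (e : K ↪g K') {x : U}
    {n : ℕ} (h : DegGE K x n) : DegGE K' (e x) n := by
  obtain ⟨f, hf, hadj⟩ := h
  exact ⟨e ∘ f, e.injective.comp hf, fun i => e.map_adj_iff.2 (hadj i)⟩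

lemma DegGE.sub {U : Type} {K : SimpleGraph U} {u v : U} (huv : K.Adj u v) {x : U} {n : ℕ}
    (h : DegGE K x n) : DegGE (subdivideEdge K u v) (some x) n := by
  classical
  obtain ⟨f, hf, hadj⟩ := h
  refine ⟨fun i => if (x = u ∧ f i = v) ∨ (x = v ∧ f i = u) then none else some (f i), ?_, ?_⟩
  · intro i j hij
    have hne := huv.ne
    dsimp only at hij
    split_ifs at hij with h1 h2 h2
    · apply hf
      rcases h1 with ⟨a, b⟩ | ⟨a, b⟩ <;> rcases h2 with ⟨c, d⟩ | ⟨c, d⟩
      · rw [b, d]
      · exact absurd (a.symm.trans c) hne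
      · exact absurd (c.symm.trans a) hne
      · rw [b, d]
    · exact hf (Option.some.inj hij)
  · intro i
    dsimp only
    split_ifs with h1
    · rw [sub_some_none]
      rcases h1 with ⟨a, _⟩ | ⟨a, _⟩
      · exact Or.inl a
      · exact Or.inr a
    · rw [sub_some_some]
      push Not at h1
      exact ⟨hadj i, fun h => h1.1 h.1 h.2, fun h => h1.2 h.1 h.2⟩

lemma DegGE.sub_none {U : Type} {K : SimpleGraph U} {u v : U} (huv : K.Adj u v) :
    DegGE (subdivideEdge K u v) none 2 := by
  refine ⟨![some u, some v], ?_, ?_⟩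
  · intro i j hij
    have := huv.ne
    fin_cases i <;> fin_cases j <;> simp_all
  · intro i
    fin_cases i <;> simp

/-- triangles of a subdivision come from triangles -/
lemma sub_triangle {U : Type} {K : SimpleGraph U} {u v : U}
    {x y z : Option U} (h1 : (subdivideEdge K u v).Adj x y) (h2 : (subdivideEdge K u v).Adj y z)
    (h3 : (subdivideEdge K u v).Adj x z) : ∃ a b c, x = some a ∧ y = some b ∧ z = some c ∧
      K.Adj a b ∧ K.Adj b c ∧ K.Adj a c := by
  rcases x with _ | x <;> rcases y with _ | y <;> rcases z with _ | z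
  · simp at h1
  · simp at h1
  · simp at h3
  · simp only [sub_none_some, sub_some_some] at h1 h2 h3
    exfalso
    rcases h1 with rfl | rfl <;> rcases h3 with rfl | rfl
    · exact h2.1.ne rfl
    · exact h2.2.1 ⟨rfl, rfl⟩
    · exact h2.2.2 ⟨rfl, rfl⟩
    · exact h2.1.ne rfl
  · simp at h2
  · simp only [sub_none_some, sub_some_none, sub_some_some] at h1 h2 h3
    exfalso
    rcases h1 with rfl | rfl <;> rcases h2 with rfl | rfl
    · exact h3.1.ne rfl
    · exact h3.2.1 ⟨rfl, rfl⟩
    · exact h3.2.2 ⟨rfl, rfl⟩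
    · exact h3.1.ne rfl
  · simp only [sub_none_some, sub_some_none, sub_some_some] at h1 h2 h3
    exfalso
    rcases h2 with rfl | rfl <;> rcases h3 with rfl | rfl
    · exact h1.1.ne rfl
    · exact h1.2.2 ⟨rfl, rfl⟩
    · exact h1.2.1 ⟨rfl, rfl⟩
    · exact h1.1.ne rfl
  · simp only [sub_some_some] at h1 h2 h3
    exact ⟨x, y, z, rfl, rfl, rfl, h1.1, h2.1, h3.1⟩

end Pool.Agent.H65I
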