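import Pool.Agent.H65I.Path
import Pool.Agent.H65I.Sub

/-! Suppressing vertices of degree two, and the two basic configurations. -/

namespace Pool.Agent.H65I

open Pool.Agent.H175R2 Finset Classical

variable {V : Type} {G : SimpleGraph V}

/-- a subdivision of `H` is induced inside `T` -/
def HasIn {W : Type} (H : SimpleGraph W) (G : SimpleGraph V) (T : Finset V) : Prop :=
  ∃ S : Set V, S ⊆ (T : Set V) ∧ IsSubdivision H (G.induce S)

lemma HasIn.mono {W : Type} {H : SimpleGraph W} {T T' : Finset V} (h : HasIn H G T)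
    (hT : T ⊆ T') : HasIn H G T' := by
  obtain ⟨S, h1, h2⟩ := h
  exact ⟨S, h1.trans (by exact_mod_cast hT), h2⟩

lemma HasIn.itm {W : Type} {H : SimpleGraph W} {T : Finset V} (h : HasIn H G T) :
    IndTopMinor H G := by
  obtain ⟨S, h1, h2⟩ := h
  exact ⟨S, h2⟩

lemma hasIn_of_emb {W U : Type} {H : SimpleGraph W} {K : SimpleGraph U} {T : Finset V}
    (h : IsSubdivision H K) (f : K ↪g G) (hf : ∀ x, f x ∈ T) : HasIn H G T := by
  refine ⟨Set.range f, ?_, h.congr ?_⟩
  · rintro _ ⟨x, rfl⟩; exact_mod_cast hf x
  · exact {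
      toEquiv := Equiv.ofInjective f f.injective
      map_rel_iff' := by
        intro a b
        simp }

/-- lift a subdivision through the suppression of `a`, whose neighbours in `T` are `u` and `w` -/
theorem supp {W : Type} {H : SimpleGraph W} {G' : SimpleGraph V} {T : Finset V} {a u w : V}
    (ha : a ∉ T) (huw : u ≠ w) (hnuw : ¬ G.Adj u w) (hau : G.Adj a u)
    (haw : G.Adj a w) (hnb : ∀ z ∈ T, G.Adj a z → z = u ∨ z = w)
    (hG' : ∀ x ∈ T, ∀ y ∈ T, (G'.Adj x y ↔ (G.Adj x y ∨ (x = u ∧ y = w) ∨ (x = w ∧ y = u))))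
    (h : HasIn H G' T) : HasIn H G (insert a T) := by
  obtain ⟨S, hST, hS⟩ := h
  have hmem : ∀ x : S, (x : V) ∈ T := fun x => by exact_mod_cast hST x.2
  by_cases huwS : u ∈ S ∧ w ∈ S
  · obtain ⟨huS, hwS⟩ := huwS
    have huw' : (G'.induce S).Adj ⟨u, huS⟩ ⟨w, hwS⟩ := by
      show G'.Adj u w
      rw [hG' _ (hmem ⟨u, huS⟩) _ (hmem ⟨w, hwS⟩)]
      exact Or.inr (Or.inl ⟨rfl, rfl⟩)
    have hK := IsSubdivision.step hS huw' SimpleGraph.Iso.refl
    refine hasIn_of_emb hK ⟨⟨fun o => o.elim a (fun x => (x : V)), ?_⟩, ?_⟩ ?_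
    · rintro (_ | x) (_ | y) hxy
      · rfl
      · simp only [Option.elim_none, Option.elim_some] at hxy
        exact absurd (hxy ▸ hmem y) ha
      · simp only [Option.elim_none, Option.elim_some] at hxy
        exact absurd (hxy ▸ hmem x) ha
      · simp only [Option.elim_some] at hxy
        rw [Subtype.ext hxy]
    · rintro (_ | x) (_ | y)
      · simp
      · simp only [Function.Embedding.coeFn_mk, Option.elim_none, Option.elim_some, sub_none_some]
        constructor
        · intro h
          rcases hnb _ (hmem y) h with h | h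
          · exact Or.inl (Subtype.ext h)
          · exact Or.inr (Subtype.ext h)
        · rintro (rfl | rfl)
          · exact hau
          · exact haw
      · simp only [Function.Embedding.coeFn_mk, Option.elim_none, Option.elim_some, sub_some_none]
        constructor
        · intro h
          rcases hnb _ (hmem x) h.symm with h | h
          · exact Or.inl (Subtype.ext h)
          · exact Or.inr (Subtype.ext h)
        · rintro (rfl | rfl)
          · exact hau.symm
          · exact haw.symm
      · simp only [Function.Embedding.coeFn_mk, Option.elim_some, sub_some_some,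
          SimpleGraph.comap_adj, Function.Embedding.subtype_apply]
        rw [hG' _ (hmem x) _ (hmem y)]
        constructor
        · intro h
          refine ⟨Or.inl h, ?_, ?_⟩
          · rintro ⟨rfl, rfl⟩; exact hnuw h
          · rintro ⟨rfl, rfl⟩; exact hnuw h.symm
        · rintro ⟨h | h | h, h1, h2⟩
          · exact h
          · exact absurd ⟨Subtype.ext h.1, Subtype.ext h.2⟩ h1
          · exact absurd ⟨Subtype.ext h.1, Subtype.ext h.2⟩ h2
    · rintro (_ | x)
      · exact mem_insert_self _ _
      · exact mem_insert_of_mem (hmem x)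
  · refine ⟨S, hST.trans (by simp), ?_⟩
    have : G'.induce S = G.induce S := by
      ext x y
      simp only [SimpleGraph.comap_adj, Function.Embedding.subtype_apply]
      rw [hG' _ (hmem x) _ (hmem y)]
      constructor
      · rintro (h | ⟨h1, h2⟩ | ⟨h1, h2⟩)
        · exact h
        · exact absurd ⟨h1 ▸ x.2, h2 ▸ y.2⟩ huwS
        · exact absurd ⟨h2 ▸ y.2, h1 ▸ x.2⟩ huwS
      · exact Or.inl
    rw [← this]; exact hS

/-- `G` with the edge `uw` added -/
def addE (G : SimpleGraph V) (u w : V) : SimpleGraph V := G ⊔ SimpleGraph.fromRel (fun x y => x = u ∧ y = w)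

lemma addE_adj {u w x y : V} (huw : u ≠ w) : (addE G u w).Adj x y ↔
    (G.Adj x y ∨ (x = u ∧ y = w) ∨ (x = w ∧ y = u)) := by
  simp only [addE, SimpleGraph.sup_adj, SimpleGraph.fromRel_adj]
  constructor
  · rintro (h | ⟨_, h | h⟩)
    · exact Or.inl h
    · exact Or.inr (Or.inl h)
    · exact Or.inr (Or.inr ⟨h.2, h.1⟩)
  · rintro (h | h | h)
    · exact Or.inl h
    · exact Or.inr ⟨by rw [h.1, h.2]; exact huw, Or.inl h⟩
    · exact Or.inr ⟨by rw [h.1, h.2]; exact Ne.symm huw, Or.inr ⟨h.2, h.1⟩⟩

/-- an embedding of the diamond -/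
lemma diamond_emb {x p l m : V} (hxp : G.Adj x p) (hxl : G.Adj x l) (hxm : G.Adj x m)
    (hpl : G.Adj p l) (hpm : G.Adj p m) (hlm : l ≠ m) (hnlm : ¬ G.Adj l m) {T : Finset V}
    (h1 : x ∈ T) (h2 : p ∈ T) (h3 : l ∈ T) (h4 : m ∈ T) : HasIn diamond G T := by
  refine hasIn_of_emb (.iso (SimpleGraph.Iso.refl (G := diamond))) ⟨⟨![x, p, l, m], ?_⟩, ?_⟩ ?_
  · have := hxp.ne
    have := hxl.ne
    have := hxm.ne
    have := hpl.ne
    have := hpm.ne
    intro i j hij
    fin_cases i <;> fin_cases j <;> simp_all
  · have := hxp.symm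
    have := hxl.symm
    have := hxm.symm
    have := hpl.symm
    have := hpm.symm
    have hml : ¬ G.Adj m l := fun h => hnlm h.symm
    intro i j
    fin_cases i <;> fin_cases j <;> simp_all [diamond]
  · intro i
    fin_cases i <;> simp_all

/-- a centre with three neighbours in an induced tree gives a subdivided diamond -/
theorem theta_of_tree : ∀ (n : ℕ) (G : SimpleGraph V) (D : Finset V) (x : V), D.card ≤ n →
    Tr G D → x ∉ D → 3 ≤ (D.filter (fun z => G.Adj x z)).card →
    HasIn diamond G (insert x D) := by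
  intro n
  induction n with
  | zero =>
    intro G D x hn _ _ h3
    have := card_filter_le D (fun z => G.Adj x z)
    omega
  | succ n ih =>
    intro G D x hn hD hx h3
    have hDc : 3 ≤ D.card := h3.trans (card_filter_le _ _)
    obtain ⟨l1, p1, l2, p2, hne, hl1, hl2⟩ := hD.two_leaves (by omega)
    have hcard : ∀ l ∈ D, (D.erase l).card ≤ n := by
      intro l hl; rw [card_erase_of_mem hl]; omega
    -- deleting a leaf
    have del : ∀ l p, Leaf G D l p → 3 ≤ ((D.erase l).filter (fun z => G.Adj x z)).card →
        HasIn diamond G (insert x D) := by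
      intro l p hl h
      exact (ih G (D.erase l) x (hcard l hl.1) (hD.erase_leaf hl)
        (fun h' => hx (mem_of_mem_erase h')) h).mono (insert_subset_insert _ (erase_subset _ _))
    have hfe : ∀ l, (D.erase l).filter (fun z => G.Adj x z) =
        (D.filter (fun z => G.Adj x z)).erase l := by
      intro l; ext z; simp only [mem_filter, mem_erase]; tauto
    by_cases c1 : ∃ l p, Leaf G D l p ∧ ¬ G.Adj x l
    · obtain ⟨l, p, hl, hxl⟩ := c1
      refine del l p hl ?_
      rw [hfe, erase_eq_of_notMem]
      · exact h3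
      · simp [hxl]
    push Not at c1
    have hxl1 := c1 l1 p1 hl1
    have hxl2 := c1 l2 p2 hl2
    by_cases c2 : 4 ≤ (D.filter (fun z => G.Adj x z)).card
    · refine del l1 p1 hl1 ?_
      have hm : l1 ∈ D.filter (fun z => G.Adj x z) := mem_filter.2 ⟨hl1.1, hxl1⟩
      rw [hfe, card_erase_of_mem hm]
      omega
    have h3' : (D.filter (fun z => G.Adj x z)).card = 3 := by omega
    -- suppressing a leaf
    have sup : ∀ l p, Leaf G D l p → ¬ G.Adj x p → HasIn diamond G (insert x D) := by
      intro l p hl hxp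
      have hxp' : x ≠ p := fun h => hx (h ▸ hl.2.1)
      have hlx : l ≠ x := fun h => hx (h ▸ hl.1)
      have e : insert x D = insert l (insert x (D.erase l)) := by
        rw [insert_comm, insert_erase hl.1]
      rw [e]
      refine supp (G' := addE G x p) (u := x) (w := p) ?_ hxp' hxp (c1 l p hl).symm hl.2.2.1 ?_ ?_ ?_
      · simp [hlx]
      · intro z hz hlz
        rcases mem_insert.1 hz with rfl | hz
        · exact Or.inl rfl
        · exact Or.inr (hl.2.2.2 z (mem_of_mem_erase hz) hlz)
      · intro z _ y _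
        exact addE_adj hxp'
      · refine ih _ (D.erase l) x (hcard l hl.1) ?_ (fun h' => hx (mem_of_mem_erase h')) ?_
        · refine (hD.erase_leaf hl).congr fun z hz y hy => ?_
          rw [addE_adj hxp']
          have hzx : z ≠ x := fun h => hx (h ▸ mem_of_mem_erase hz)
          have hyx : y ≠ x := fun h => hx (h ▸ mem_of_mem_erase hy)
          simp [hzx, hyx]
        · have hsub : insert p ((D.filter (fun z => G.Adj x z)).erase l) ⊆
              (D.erase l).filter (fun z => (addE G x p).Adj x z) := by
            intro z hz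
            rw [mem_filter, addE_adj hxp']
            rcases mem_insert.1 hz with rfl | hz
            · exact ⟨mem_erase.2 ⟨hl.2.2.1.ne', hl.2.1⟩, Or.inr (Or.inl ⟨rfl, rfl⟩)⟩
            · rw [mem_erase, mem_filter] at hz
              exact ⟨mem_erase.2 ⟨hz.1, hz.2.1⟩, Or.inl hz.2.2⟩
          refine le_trans ?_ (card_le_card hsub)
          have hm : l ∈ D.filter (fun z => G.Adj x z) := mem_filter.2 ⟨hl.1, c1 l p hl⟩
          rw [card_insert_of_notMem, card_erase_of_mem hm]
          · omega
          · simp [hxp]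
    by_cases c3 : G.Adj x p1
    swap
    · exact sup l1 p1 hl1 c3
    by_cases c4 : G.Adj x p2
    swap
    · exact sup l2 p2 hl2 c4
    -- the two leaves are not adjacent
    have hno : ¬ G.Adj l1 l2 := by
      intro h
      have e1 : l2 = p1 := hl1.2.2.2 l2 hl2.1 h
      have e2 : l1 = p2 := hl2.2.2.2 l1 hl1.1 h.symm
      obtain ⟨a, ha, b, hb, hab⟩ := hD.cn.2 {l1, l2}
        (by intro z hz; simp only [mem_insert, mem_singleton] at hz; rcases hz with rfl | rfl
            exacts [hl1.1, hl2.1]) (by simp) (by
          rw [← card_pos]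
          have : ({l1, l2} : Finset V).card = 2 := card_pair hne
          have := le_card_sdiff {l1, l2} D
          omega)
      obtain ⟨hbD, hb'⟩ := mem_sdiff.1 hb
      simp only [mem_insert, mem_singleton, not_or] at ha hb'
      rcases ha with rfl | rfl
      · exact hb'.2 ((hl1.2.2.2 b hbD hab).trans e1.symm)
      · exact hb'.1 ((hl2.2.2.2 b hbD hab).trans e2.symm)
    have hp12 : p1 = p2 := by
      by_contra hpp
      have hp1l2 : p1 ≠ l2 := by rintro rfl; exact hno hl1.2.2.1
      have hp2l1 : p2 ≠ l1 := by rintro rfl; exact hno hl2.2.2.1.symm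
      have hsub : ({l1, l2, p1, p2} : Finset V) ⊆ D.filter (fun z => G.Adj x z) := by
        intro z hz
        simp only [mem_insert, mem_singleton] at hz
        rw [mem_filter]
        rcases hz with rfl | rfl | rfl | rfl
        exacts [⟨hl1.1, hxl1⟩, ⟨hl2.1, hxl2⟩, ⟨hl1.2.1, c3⟩, ⟨hl2.2.1, c4⟩]
      have h4 : ({l1, l2, p1, p2} : Finset V).card = 4 := by
        rw [card_insert_of_notMem, card_insert_of_notMem, card_insert_of_notMem, card_singleton]
        · simpa using hpp
        · simp only [mem_insert, mem_singleton, not_or]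
          exact ⟨Ne.symm hp1l2, hl2.2.2.1.ne⟩
        · simp only [mem_insert, mem_singleton, not_or]
          exact ⟨hne, hl1.2.2.1.ne, Ne.symm hp2l1⟩
      have := card_le_card hsub
      omega
    subst hp12
    exact diamond_emb c3 hxl1 hxl2 hl1.2.2.1.symm hl2.2.2.1.symm hne hno (mem_insert_self _ _)
      (mem_insert_of_mem hl1.2.1) (mem_insert_of_mem hl1.1) (mem_insert_of_mem hl2.1)

/-- an embedding of the paw -/
lemma paw_emb {x a c v : V} (hxa : G.Adj x a) (hxc : G.Adj x c) (hac : G.Adj a c)
    (hxv : G.Adj x v) (hva : ¬ G.Adj v a) (hvc : ¬ G.Adj v c) (hva' : v ≠ a) (hvc' : v ≠ c)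
    {T : Finset V} (h1 : x ∈ T) (h2 : a ∈ T) (h3 : c ∈ T) (h4 : v ∈ T) : HasIn paw G T := by
  refine hasIn_of_emb (.iso (SimpleGraph.Iso.refl (G := paw))) ⟨⟨![x, a, c, v], ?_⟩, ?_⟩ ?_
  · have := hxa.ne
    have := hxc.ne
    have := hac.ne
    have := hxv.ne
    have := Ne.symm hva'
    have := Ne.symm hvc'
    intro i j hij
    fin_cases i <;> fin_cases j <;> simp_all
  · have := hxa.symm
    have := hxc.symm
    have := hac.symm
    have := hxv.symm
    have h5 : ¬ G.Adj a v := fun h => hva h.symm
    have h6 : ¬ G.Adj c v := fun h => hvc h.symm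
    intro i j
    fin_cases i <;> fin_cases j <;> simp_all [paw]
  · intro i
    fin_cases i <;> simp_all

/-- an induced cycle with a pendant vertex gives a subdivided paw -/
theorem paw_of_cycle : ∀ (n : ℕ) (G : SimpleGraph V) (P : Finset V) (x a c v : V), P.card ≤ n →
    IPath G a c P → a ≠ c → x ∉ P → G.Adj x a → G.Adj x c →
    (∀ z ∈ P, G.Adj x z → z = a ∨ z = c) → v ∉ P → G.Adj x v → (∀ z ∈ P, ¬ G.Adj v z) →
    HasIn paw G (insert v (insert x P)) := by
  intro n
  induction n with
  | zero =>
    intro G P x a c v hn hP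
    have := card_pos.2 ⟨a, hP.left_mem⟩
    omega
  | succ n ih =>
    intro G P x a c v hn hP hac hx hxa hxc hnb hv hxv hnv
    obtain ⟨a1, P1, rfl, haP1, haa1, hu, hP1⟩ := hP.uncons hac
    rw [card_insert_of_notMem haP1] at hn
    have hxa' : x ≠ a := hxa.ne
    have hvx : v ≠ x := hxv.ne'
    have hva : v ≠ a := fun h => hv (h ▸ mem_insert_self _ _)
    have hvP1 : v ∉ P1 := fun h => hv (mem_insert_of_mem h)
    have hxP1 : x ∉ P1 := fun h => hx (mem_insert_of_mem h)
    have ha1P : a1 ∈ P1 := hP1.left_mem
    have hcP1 : c ∈ P1 := hP1.right_mem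
    by_cases ha1c : a1 = c
    · subst ha1c
      refine paw_emb hxa hxc haa1 hxv (hnv a (mem_insert_self _ _))
        (hnv a1 (mem_insert_of_mem ha1P)) hva (fun h => hvP1 (h ▸ ha1P)) ?_ ?_ ?_ ?_
      · simp
      · simp
      · exact mem_insert_of_mem (mem_insert_of_mem (mem_insert_of_mem ha1P))
      · simp
    · have ha1a : a1 ≠ a := fun h => haP1 (h ▸ ha1P)
      have hxa1 : ¬ G.Adj x a1 := by
        intro h
        rcases hnb a1 (mem_insert_of_mem ha1P) h with h | h
        · exact ha1a h
        · exact ha1c h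
      have hxa1' : x ≠ a1 := fun h => hxP1 (h ▸ ha1P)
      have e : insert v (insert x (insert a P1)) = insert a (insert v (insert x P1)) := by
        ext z; simp only [mem_insert]; tauto
      rw [e]
      refine supp (G' := addE G x a1) (u := x) (w := a1) ?_ hxa1' hxa1 hxa.symm haa1 ?_ ?_ ?_
      · simp only [mem_insert, not_or]
        exact ⟨Ne.symm hva, Ne.symm hxa', haP1⟩
      · intro z hz haz
        simp only [mem_insert] at hz
        rcases hz with rfl | rfl | hz
        · exact absurd haz.symm (hnv a (mem_insert_self _ _))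
        · exact Or.inl rfl
        · exact Or.inr (hu z hz haz)
      · intro z _ y _
        exact addE_adj hxa1'
      · refine ih _ P1 x a1 c v (by omega) ?_ ha1c hxP1 ?_ ?_ ?_ hvP1 ?_ ?_
        · refine hP1.congr fun z hz y hy => ?_
          rw [addE_adj hxa1']
          have hzx : z ≠ x := fun h => hxP1 (h ▸ hz)
          have hyx : y ≠ x := fun h => hxP1 (h ▸ hy)
          simp [hzx, hyx]
        · rw [addE_adj hxa1']; exact Or.inr (Or.inl ⟨rfl, rfl⟩)
        · rw [addE_adj hxa1']; exact Or.inl hxc
        · intro z hz hxz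
          rw [addE_adj hxa1'] at hxz
          rcases hxz with h | h | h
          · rcases hnb z (mem_insert_of_mem hz) h with h | h
            · exact absurd (h ▸ hz) haP1
            · exact Or.inr h
          · exact Or.inl h.2
          · exact absurd h.1 hxa1'
        · rw [addE_adj hxa1']; exact Or.inl hxv
        · intro z hz hvz
          rw [addE_adj hxa1'] at hvz
          rcases hvz with h | h | h
          · exact hnv z (mem_insert_of_mem hz) h
          · exact hvx h.1
          · exact hvP1 (h.1 ▸ ha1P)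

end Pool.Agent.H65I
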