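import Pool.Agent.H175R2.Cut
import Pool.Agent.H65I.Sub

namespace Pool.Agent.H65I

open Pool.Agent.H175R2

/-- disjoint cliques of size at most three and a partial matching between them -/
structure TriLike {V C : Type} (F : SimpleGraph V) (cell : V → C) : Prop where
  inn : ∀ u v, cell u = cell v → u ≠ v → F.Adj u v
  three : ∀ a b c d : V, cell a = cell b → cell a = cell c → cell a = cell d →
    (a = b ∨ a = c ∨ a = d ∨ b = c ∨ b = d ∨ c = d)
  out : ∀ v u u', F.Adj v u → F.Adj v u' → cell u ≠ cell v → cell u' ≠ cell v → u = u'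

namespace TriLike

variable {V C : Type} {F : SimpleGraph V} {cell : V → C}

lemma claw (h : TriLike F cell) {w x y z : V} (hx : F.Adj w x) (hy : F.Adj w y) (hz : F.Adj w z)
    (hxy : x ≠ y) (hxz : x ≠ z) (hyz : y ≠ z) : F.Adj x y ∨ F.Adj x z ∨ F.Adj y z := by
  by_cases c1 : cell x = cell w <;> by_cases c2 : cell y = cell w <;> by_cases c3 : cell z = cell w
  · exact Or.inl (h.inn _ _ (c1.trans c2.symm) hxy)
  · exact Or.inl (h.inn _ _ (c1.trans c2.symm) hxy)
  · exact Or.inr (Or.inl (h.inn _ _ (c1.trans c3.symm) hxz))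
  · exact absurd (h.out _ _ _ hy hz c2 c3) hyz
  · exact Or.inr (Or.inr (h.inn _ _ (c2.trans c3.symm) hyz))
  · exact absurd (h.out _ _ _ hx hz c1 c3) hxz
  · exact absurd (h.out _ _ _ hx hy c1 c2) hxy
  · exact absurd (h.out _ _ _ hx hy c1 c2) hxy

lemma tri (h : TriLike F cell) {v a b : V} (ha : F.Adj v a) (hb : F.Adj v b) (hab : F.Adj a b) :
    cell a = cell v := by
  by_contra c1
  by_cases c2 : cell b = cell v
  · exact hb.ne (h.out a v b ha.symm hab (Ne.symm c1) (by rw [c2]; exact Ne.symm c1))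
  · exact hab.ne (h.out v a b ha hb c1 c2)

lemma deg (h : TriLike F cell) {w x y z t : V} (hx : F.Adj w x) (hy : F.Adj w y) (hz : F.Adj w z)
    (ht : F.Adj w t)
    (hxy : x ≠ y) (hxz : x ≠ z) (hxt : x ≠ t) (hyz : y ≠ z) (hyt : y ≠ t) (hzt : z ≠ t) :
    False := by
  have key : ∀ x y z : V, F.Adj w x → F.Adj w y → F.Adj w z → x ≠ y → x ≠ z → y ≠ z →
      cell x = cell w → cell y = cell w → cell z = cell w → False := by
    intro x y z hx hy hz hxy hxz hyz c1 c2 c3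
    rcases h.three w x y z c1.symm c2.symm c3.symm with h | h | h | h | h | h
    · exact hx.ne h
    · exact hy.ne h
    · exact hz.ne h
    · exact hxy h
    · exact hxz h
    · exact hyz h
  by_cases c1 : cell x = cell w <;> by_cases c2 : cell y = cell w <;>
    by_cases c3 : cell z = cell w <;> by_cases c4 : cell t = cell w
  all_goals first
    | exact key x y z hx hy hz hxy hxz hyz c1 c2 c3
    | exact key x y t hx hy ht hxy hxt hyt c1 c2 c4
    | exact key x z t hx hz ht hxz hxt hzt c1 c3 c4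
    | exact key y z t hy hz ht hyz hyt hzt c2 c3 c4
    | exact absurd (h.out _ _ _ hx hy c1 c2) hxy
    | exact absurd (h.out _ _ _ hx hz c1 c3) hxz
    | exact absurd (h.out _ _ _ hx ht c1 c4) hxt
    | exact absurd (h.out _ _ _ hy hz c2 c3) hyz
    | exact absurd (h.out _ _ _ hy ht c2 c4) hyt
    | exact absurd (h.out _ _ _ hz ht c3 c4) hzt

lemma not_degGE (h : TriLike F cell) (w : V) : ¬ DegGE F w 4 := by
  rintro ⟨f, hf, hadj⟩
  refine h.deg (hadj 0) (hadj 1) (hadj 2) (hadj 3) ?_ ?_ ?_ ?_ ?_ ?_ <;>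
    exact fun e => by have := hf e; simp at this

end TriLike

/-- Vertices of the truncated brick wall: at each point `p` of the `n × n` grid two triangles
`(p, false, ·)` and `(p, true, ·)`, joined by an edge at the vertices `2`; the vertices `0` are used
for the horizontal links, the vertices `1` for the vertical links. -/
abbrev TV (n : ℕ) : Type := (Fin n × Fin n) × Bool × Fin 3

/-- one direction of the links -/
def TLink {n : ℕ} (u v : TV n) : Prop :=
  (u.1 = v.1 ∧ u.2.1 = false ∧ v.2.1 = true ∧ u.2.2 = 2 ∧ v.2.2 = 2) ∨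
  (u.2.1 = true ∧ v.2.1 = false ∧ u.2.2 = 0 ∧ v.2.2 = 0 ∧ u.1.1 = v.1.1 ∧
    u.1.2.val + 1 = v.1.2.val) ∨
  (u.2.1 = true ∧ v.2.1 = false ∧ u.2.2 = 1 ∧ v.2.2 = 1 ∧ u.1.2 = v.1.2 ∧
    u.1.1.val + 1 = v.1.1.val)

/-- the truncated wall -/
def famT (n : ℕ) : SimpleGraph (TV n) :=
  SimpleGraph.fromRel (fun u v => (u.1 = v.1 ∧ u.2.1 = v.2.1) ∨ TLink u v)

/-- the cell (triangle) of a vertex -/
def tcell {n : ℕ} (u : TV n) : (Fin n × Fin n) × Bool := (u.1, u.2.1)

lemma famT_adj_out {n : ℕ} {u v : TV n} (h : (famT n).Adj v u) (hc : tcell u ≠ tcell v) :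
    TLink u v ∨ TLink v u := by
  simp only [famT, SimpleGraph.fromRel_adj] at h
  rcases h.2 with (h | h) | (h | h)
  · exact absurd (by simp only [tcell, Prod.mk.injEq]; exact ⟨h.1.symm, h.2.symm⟩) hc
  · exact Or.inr h
  · exact absurd (by simp only [tcell, Prod.mk.injEq]; exact ⟨h.1, h.2⟩) hc
  · exact Or.inl h

lemma TLink.right_unique {n : ℕ} {u v v' : TV n} (h : TLink u v) (h' : TLink u v') : v = v' := by
  obtain ⟨⟨i, j⟩, s, r⟩ := u
  obtain ⟨⟨i1, j1⟩, s1, r1⟩ := v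
  obtain ⟨⟨i2, j2⟩, s2, r2⟩ := v'
  simp only [TLink, Prod.mk.injEq] at h h' ⊢
  simp only [Fin.ext_iff] at h h' ⊢
  rcases h with h | h | h <;> rcases h' with h' | h' | h' <;>
    obtain ⟨_, _, _, _, _⟩ := h <;> obtain ⟨_, _, _, _, _⟩ := h' <;> simp_all

lemma TLink.left_unique {n : ℕ} {u u' v : TV n} (h : TLink u v) (h' : TLink u' v) : u = u' := by
  obtain ⟨⟨i, j⟩, s, r⟩ := v
  obtain ⟨⟨i1, j1⟩, s1, r1⟩ := u
  obtain ⟨⟨i2, j2⟩, s2, r2⟩ := u'
  simp only [TLink, Prod.mk.injEq] at h h' ⊢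
  simp only [Fin.ext_iff] at h h' ⊢
  rcases h with h | h | h <;> rcases h' with h' | h' | h' <;>
    obtain ⟨_, _, _, _, _⟩ := h <;> obtain ⟨_, _, _, _, _⟩ := h' <;> simp_all <;> omega

lemma TLink.no_both {n : ℕ} {u v w : TV n} (h : TLink u v) (h' : TLink v w) : False := by
  obtain ⟨⟨i, j⟩, s, r⟩ := v
  obtain ⟨⟨i1, j1⟩, s1, r1⟩ := u
  obtain ⟨⟨i2, j2⟩, s2, r2⟩ := w
  simp only [TLink] at h h'
  rcases h with h | h | h <;> rcases h' with h' | h' | h' <;>
    obtain ⟨_, _, _, _, _⟩ := h <;> obtain ⟨_, _, _, _, _⟩ := h' <;> simp_all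

theorem famT_triLike (n : ℕ) : TriLike (famT n) (tcell (n := n)) := by
  refine ⟨?_, ?_, ?_⟩
  · intro u v hc hne
    simp only [tcell, Prod.mk.injEq] at hc
    simp only [famT, SimpleGraph.fromRel_adj]
    exact ⟨hne, Or.inl (Or.inl hc)⟩
  · rintro ⟨p, s, a⟩ ⟨p1, s1, b⟩ ⟨p2, s2, c⟩ ⟨p3, s3, d⟩ h1 h2 h3
    simp only [tcell, Prod.mk.injEq] at h1 h2 h3
    obtain ⟨rfl, rfl⟩ := h1
    obtain ⟨rfl, rfl⟩ := h2
    obtain ⟨rfl, rfl⟩ := h3
    simp only [Prod.mk.injEq, true_and]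
    omega
  · intro v u u' h h' hc hc'
    rcases famT_adj_out h hc with h1 | h1 <;> rcases famT_adj_out h' hc' with h2 | h2
    · exact h1.left_unique h2
    · exact (h1.no_both h2).elim
    · exact (h2.no_both h1).elim
    · exact h1.right_unique h2

end Pool.Agent.H65I
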