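import Pool.Agent.H65I.Tri

namespace Pool.Agent.H65I

open Pool.Agent.H175R2 Pool.Agent.H175R2.CutAux Finset

/-- few vertices of `A` have a neighbour outside -/
lemma bdry_le {V : Type} (G : SimpleGraph V) {D k : ℕ}
    (hdeg : ∀ (z : V) (S : Finset V), (∀ x ∈ S, G.Adj z x) → S.card ≤ D)
    {A : Set V} (h : Types G A k) (B : Finset V) (hB : ∀ x ∈ B, x ∈ A ∧ ∃ z ∉ A, G.Adj x z) :
    B.card ≤ D * k := by
  classical
  obtain ⟨l, hl⟩ := h
  by_contra hcon
  push Not at hcon
  have hcard : (Finset.univ : Finset (Fin k)).card * D < B.card := by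
    simp only [card_univ, Fintype.card_fin]; rw [mul_comm]; exact hcon
  obtain ⟨t, _, ht⟩ := Finset.exists_lt_card_fiber_of_mul_lt_card_of_maps_to
    (f := l) (s := B) (t := Finset.univ) (fun _ _ => Finset.mem_univ _) hcard
  obtain ⟨x0, hx0⟩ : (B.filter (fun x => l x = t)).Nonempty := card_pos.1 (by omega)
  rw [mem_filter] at hx0
  obtain ⟨hA0, z0, hz0, hadj⟩ := hB x0 hx0.1
  have := hdeg z0 (B.filter (fun x => l x = t)) (by
    intro x hx
    rw [mem_filter] at hx
    have := (hl x0 hA0 x (hB x hx.1).1 (hx0.2.trans hx.2.symm) z0 hz0).1 hadj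
    exact this.symm)
  omega

lemma grid_core {n m : ℕ} (A : Set (Fin n × Fin n)) (h1 : (mixed A).card ≤ m)
    (h2 : (mixed (Prod.swap ⁻¹' A)).card ≤ m) (hn : 3 * m < n) (hA1 : n * n ≤ 3 * A.ncard)
    (hA2 : 3 * A.ncard ≤ 2 * (n * n)) : False := by
  have hcompl : A.ncard + Aᶜ.ncard = n * n := by
    rw [Set.ncard_add_ncard_compl]; simp
  have hbig : n ≤ 3 * (mixed A).card → False := by
    intro h; omega
  by_cases hfull : ∃ i, ∀ j, (i, j) ∈ A
  · by_cases hempty : ∃ i, ∀ j, (i, j) ∉ A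
    · obtain ⟨i, hi⟩ := hfull
      obtain ⟨i', hi'⟩ := hempty
      have : mixed (Prod.swap ⁻¹' A) = Finset.univ := by
        ext j
        simp only [mixed, Finset.mem_filter, Finset.mem_univ, true_and, iff_true]
        exact ⟨⟨i, hi j⟩, ⟨i', hi' j⟩⟩
      rw [this] at h2
      simp at h2
      omega
    · push Not at hempty
      have h3 : Aᶜ.ncard ≤ (mixed Aᶜ).card * n := by
        apply card_le_mixed
        rintro i ⟨j, hj⟩
        rw [mixed_compl]
        simp only [mixed, Finset.mem_filter, Finset.mem_univ, true_and]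
        exact ⟨hempty i, j, hj⟩
      rw [mixed_compl] at h3
      apply hbig
      have : n * n ≤ 3 * ((mixed A).card * n) := by omega
      have : n * n ≤ (3 * (mixed A).card) * n := by linarith
      exact Nat.le_of_mul_le_mul_right this (by omega)
  · push Not at hfull
    have h3 : A.ncard ≤ (mixed A).card * n := by
      apply card_le_mixed
      rintro i ⟨j, hj⟩
      simp only [mixed, Finset.mem_filter, Finset.mem_univ, true_and]
      exact ⟨⟨j, hj⟩, hfull i⟩
    apply hbig
    have : n * n ≤ (3 * (mixed A).card) * n := by linarith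
    exact Nat.le_of_mul_le_mul_right this (by omega)

/-- the row path -/
def rowpos {n : ℕ} (i : Fin n) (m : Fin (4 * n)) : TV n :=
  ((i, ⟨m.val / 4, by omega⟩), decide (2 ≤ m.val % 4), if m.val % 4 = 0 ∨ m.val % 4 = 3 then 0 else 2)

/-- the column path -/
def colpos {n : ℕ} (j : Fin n) (m : Fin (4 * n)) : TV n :=
  ((⟨m.val / 4, by omega⟩, j), decide (2 ≤ m.val % 4), if m.val % 4 = 0 ∨ m.val % 4 = 3 then 1 else 2)

/-- the grid points -/
def wpt {n : ℕ} (p : Fin n × Fin n) : TV n := (p, false, 2)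

lemma rowpos_adj {n : ℕ} (i : Fin n) {m m' : Fin (4 * n)} (h : m.val + 1 = m'.val) :
    (famT n).Adj (rowpos i m) (rowpos i m') := by
  have h4 : m.val % 4 = 0 ∨ m.val % 4 = 1 ∨ m.val % 4 = 2 ∨ m.val % 4 = 3 := by omega
  simp only [famT, SimpleGraph.fromRel_adj, TLink, rowpos, ne_eq, Prod.mk.injEq, true_and]
  rcases h4 with h4 | h4 | h4 | h4
  · have e1 : m'.val % 4 = 1 := by omega
    have e2 : m'.val / 4 = m.val / 4 := by omega
    simp [h4, e1, e2]
  · have e1 : m'.val % 4 = 2 := by omega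
    have e2 : m'.val / 4 = m.val / 4 := by omega
    simp [h4, e1, e2]
  · have e1 : m'.val % 4 = 3 := by omega
    have e2 : m'.val / 4 = m.val / 4 := by omega
    simp [h4, e1, e2]
  · have e1 : m'.val % 4 = 0 := by omega
    have e2 : m'.val / 4 = m.val / 4 + 1 := by omega
    simp [h4, e1, e2]

lemma colpos_adj {n : ℕ} (i : Fin n) {m m' : Fin (4 * n)} (h : m.val + 1 = m'.val) :
    (famT n).Adj (colpos i m) (colpos i m') := by
  have h4 : m.val % 4 = 0 ∨ m.val % 4 = 1 ∨ m.val % 4 = 2 ∨ m.val % 4 = 3 := by omega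
  simp only [famT, SimpleGraph.fromRel_adj, TLink, colpos, ne_eq, Prod.mk.injEq]
  rcases h4 with h4 | h4 | h4 | h4
  · have e1 : m'.val % 4 = 1 := by omega
    have e2 : m'.val / 4 = m.val / 4 := by omega
    simp [h4, e1, e2]
  · have e1 : m'.val % 4 = 2 := by omega
    have e2 : m'.val / 4 = m.val / 4 := by omega
    simp [h4, e1, e2]
  · have e1 : m'.val % 4 = 3 := by omega
    have e2 : m'.val / 4 = m.val / 4 := by omega
    simp [h4, e1, e2]
  · have e1 : m'.val % 4 = 0 := by omega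
    have e2 : m'.val / 4 = m.val / 4 + 1 := by omega
    simp [h4, e1, e2]

lemma rowpos_w {n : ℕ} (i j : Fin n) : rowpos i ⟨4 * j.val + 1, by omega⟩ = wpt (i, j) := by
  simp only [rowpos, wpt, Prod.mk.injEq, true_and]
  have e1 : (4 * j.val + 1) % 4 = 1 := by omega
  have e2 : (4 * j.val + 1) / 4 = j.val := by omega
  simp [e1, e2]

lemma colpos_w {n : ℕ} (i j : Fin n) : colpos j ⟨4 * i.val + 1, by omega⟩ = wpt (i, j) := by
  simp only [colpos, wpt, Prod.mk.injEq]
  have e1 : (4 * i.val + 1) % 4 = 1 := by omega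
  have e2 : (4 * i.val + 1) / 4 = i.val := by omega
  simp [e1, e2]

lemma famT_deg {n : ℕ} (z : TV n) (S : Finset (TV n)) (h : ∀ x ∈ S, (famT n).Adj z x) :
    S.card ≤ 3 := by
  by_contra hcon
  push Not at hcon
  obtain ⟨f⟩ : Nonempty (Fin 4 ↪ S) := by
    rw [Function.Embedding.nonempty_iff_card_le]
    simp; omega
  exact (famT_triLike n).not_degGE z ⟨fun i => f i, fun i j hij => f.injective (Subtype.ext hij),
    fun i => h _ (f i).2⟩

lemma chain_mixed {n k : ℕ} {A : Set (TV n)} (hT : Types (famT n) A k)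
    (pos : Fin n → Fin (4 * n) → TV n) (ind : TV n → Fin n)
    (hind : ∀ i m, ind (pos i m) = i)
    (hadj : ∀ (i : Fin n) (m m' : Fin (4 * n)), m.val + 1 = m'.val →
      (famT n).Adj (pos i m) (pos i m'))
    (A' : Set (Fin n × Fin n)) (hA' : ∀ i j, ∃ m, ((i, j) ∈ A' ↔ pos i m ∈ A)) :
    (mixed A').card ≤ 3 * k := by
  classical
  have hch : ∀ i : Fin n, ∃ a b : Fin (4 * n), i ∈ mixed A' → (pos i a ∈ A ∧ pos i b ∉ A ∧
      (a.val + 1 = b.val ∨ b.val + 1 = a.val)) := by
    intro i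
    by_cases hi : i ∈ mixed A'
    swap
    · have := i.2
      exact ⟨⟨0, by omega⟩, ⟨0, by omega⟩, fun h => absurd h hi⟩
    suffices h : ∃ a b : Fin (4 * n), pos i a ∈ A ∧ pos i b ∉ A ∧
        (a.val + 1 = b.val ∨ b.val + 1 = a.val) by
      obtain ⟨a, b, h⟩ := h
      exact ⟨a, b, fun _ => h⟩
    simp only [mixed, Finset.mem_filter, Finset.mem_univ, true_and] at hi
    obtain ⟨⟨j, hj⟩, ⟨j', hj'⟩⟩ := hi
    obtain ⟨m, hm⟩ := hA' i j
    obtain ⟨m', hm'⟩ := hA' i j'
    exact step_exists (fun m => pos i m ∈ A) ⟨m, hm.1 hj⟩ ⟨m', fun h => hj' (hm'.2 h)⟩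
  choose a b habc using hch
  have ha := fun i hi => (habc i hi).1
  have hb := fun i hi => (habc i hi).2.1
  have hab := fun i hi => (habc i hi).2.2
  have h1 := bdry_le (famT n) famT_deg hT ((mixed A').image (fun i => pos i (a i))) (by
    intro x hx
    rw [mem_image] at hx
    obtain ⟨i, hi, rfl⟩ := hx
    refine ⟨ha i hi, pos i (b i), hb i hi, ?_⟩
    rcases hab i hi with h | h
    · exact hadj i _ _ h
    · exact (hadj i _ _ h).symm)
  rwa [card_image_of_injOn] at h1
  intro i _ j _ hij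
  have : ind (pos i (a i)) = ind (pos j (a j)) := congrArg ind hij
  rwa [hind, hind] at this

lemma wpt_injective (n : ℕ) : Function.Injective (wpt (n := n)) := by
  intro p q h
  simp only [wpt, Prod.mk.injEq, and_true] at h
  exact h

theorem famT_cut {n k : ℕ} (hn : 9 * k < n) {A : Set (TV n)} (hT : Types (famT n) A k)
    (h1 : n * n ≤ 3 * (A ∩ Set.range (wpt (n := n))).ncard)
    (h2 : 3 * (A ∩ Set.range (wpt (n := n))).ncard ≤ 2 * (n * n)) : False := by
  have hc : (A ∩ Set.range (wpt (n := n))).ncard = (wpt (n := n) ⁻¹' A).ncard := by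
    rw [Set.inter_comm, Set.inter_comm, ← Set.image_preimage_eq_inter_range,
      Set.ncard_image_of_injective _ (wpt_injective n)]
  rw [hc] at h1 h2
  refine grid_core (m := 3 * k) (wpt (n := n) ⁻¹' A) ?_ ?_ (by omega) h1 h2
  · refine chain_mixed hT rowpos (fun v => v.1.1) (fun _ _ => rfl)
      (fun i m m' h => rowpos_adj i h) _ ?_
    intro i j
    exact ⟨_, by rw [rowpos_w]; rfl⟩
  · refine chain_mixed hT colpos (fun v => v.1.2) (fun _ _ => rfl)
      (fun i m m' h => colpos_adj i h) _ ?_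
    intro i j
    exact ⟨_, by rw [colpos_w]; rfl⟩

lemma types_compl {V : Type} {G : SimpleGraph V} {A : Set V} {k : ℕ} (h : Types Gᶜ A k) :
    Types G A k := by
  obtain ⟨l, hl⟩ := h
  refine ⟨l, fun x hx y hy hxy z hz => ?_⟩
  have hxz : x ≠ z := fun h => hz (h ▸ hx)
  have hyz : y ≠ z := fun h => hz (h ▸ hy)
  have := hl x hx y hy hxy z hz
  simp only [SimpleGraph.compl_adj, ne_eq, hxz, not_false_eq_true, true_and, hyz] at this
  exact not_iff_not.1 this

theorem famT_unbounded (c : ℕ) : ∀ n, 9 * c + 1 < n → ∀ k ≤ c,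
    ¬ CwLE (famT n) k ∧ ¬ CwLE (famT n)ᶜ k := by
  intro n hn k hk
  have hW : (Set.range (wpt (n := n))).ncard = n * n := by
    rw [← Set.image_univ, Set.ncard_image_of_injective _ (wpt_injective n), Set.ncard_univ]; simp
  constructor
  · intro h
    obtain ⟨A, hT, h1, h2⟩ := balanced_cut _ k h (Set.range (wpt (n := n))) (by rw [hW]; nlinarith)
    rw [hW] at h1 h2
    exact famT_cut (by omega) hT h1 h2
  · intro h
    obtain ⟨A, hT, h1, h2⟩ := balanced_cut _ k h (Set.range (wpt (n := n))) (by rw [hW]; nlinarith)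
    rw [hW] at h1 h2
    exact famT_cut (by omega) (types_compl hT) h1 h2

end Pool.Agent.H65I
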